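import Mathlib

/-!
Fourfold sums over the solutions of `x₁ + 4 x₃ = x₂ + 4 x₄`.
-/

set_option autoImplicit false

namespace Pool.Agent.H128Z.Common

open Finset

/-- the fourfold sum over `[0, n)⁴` -/
def Q4 (n : ℕ) (h : ℕ → ℕ → ℕ → ℕ → ℝ) : ℝ :=
  ∑ a ∈ range n, ∑ b ∈ range n, ∑ c ∈ range n, ∑ d ∈ range n, h a b c d

theorem sum_mul_range (M L : ℕ) (h : ℕ → ℝ) :
    ∑ x ∈ range (M * L), h x = ∑ i ∈ range M, ∑ y ∈ range L, h (i * L + y) := by
  induction M with
  | zero => simp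
  | succ M ih => rw [Nat.succ_mul, Finset.sum_range_add, ih, Finset.sum_range_succ]

theorem Q4_split (M L : ℕ) (h : ℕ → ℕ → ℕ → ℕ → ℝ) :
    Q4 (M * L) h = Q4 M (fun i j k l => Q4 L (fun a b c d =>
      h (i * L + a) (j * L + b) (k * L + c) (l * L + d))) := by
  unfold Q4
  simp only [sum_mul_range]
  refine Finset.sum_congr rfl fun i _ => ?_
  rw [Finset.sum_comm]
  refine Finset.sum_congr rfl fun j _ => ?_
  have e1 : ∀ a : ℕ, ∑ b ∈ range L, ∑ k ∈ range M, ∑ c ∈ range L, ∑ l ∈ range M, ∑ d ∈ range L,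
      h (i * L + a) (j * L + b) (k * L + c) (l * L + d) =
      ∑ k ∈ range M, ∑ l ∈ range M, ∑ b ∈ range L, ∑ c ∈ range L, ∑ d ∈ range L,
      h (i * L + a) (j * L + b) (k * L + c) (l * L + d) := by
    intro a
    rw [Finset.sum_comm]
    refine Finset.sum_congr rfl fun k _ => ?_
    have e2 : ∀ b : ℕ, ∑ c ∈ range L, ∑ l ∈ range M, ∑ d ∈ range L,
        h (i * L + a) (j * L + b) (k * L + c) (l * L + d) =
        ∑ l ∈ range M, ∑ c ∈ range L, ∑ d ∈ range L,
        h (i * L + a) (j * L + b) (k * L + c) (l * L + d) := fun b => Finset.sum_comm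
    simp only [e2]
    rw [Finset.sum_comm]
  simp only [e1]
  rw [Finset.sum_comm]
  refine Finset.sum_congr rfl fun k _ => ?_
  rw [Finset.sum_comm]

theorem Q4_congr {n : ℕ} {h h' : ℕ → ℕ → ℕ → ℕ → ℝ}
    (H : ∀ a, a < n → ∀ b, b < n → ∀ c, c < n → ∀ d, d < n → h a b c d = h' a b c d) :
    Q4 n h = Q4 n h' := by
  unfold Q4
  refine Finset.sum_congr rfl fun a ha => Finset.sum_congr rfl fun b hb =>
    Finset.sum_congr rfl fun c hc => Finset.sum_congr rfl fun d hd => ?_
  exact H a (mem_range.mp ha) b (mem_range.mp hb) c (mem_range.mp hc) d (mem_range.mp hd)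

theorem Q4_le {n : ℕ} {h h' : ℕ → ℕ → ℕ → ℕ → ℝ}
    (H : ∀ a, a < n → ∀ b, b < n → ∀ c, c < n → ∀ d, d < n → h a b c d ≤ h' a b c d) :
    Q4 n h ≤ Q4 n h' := by
  unfold Q4
  refine Finset.sum_le_sum fun a ha => Finset.sum_le_sum fun b hb =>
    Finset.sum_le_sum fun c hc => Finset.sum_le_sum fun d hd => ?_
  exact H a (mem_range.mp ha) b (mem_range.mp hb) c (mem_range.mp hc) d (mem_range.mp hd)

theorem Q4_add (n : ℕ) (h h' : ℕ → ℕ → ℕ → ℕ → ℝ) :
    Q4 n (fun a b c d => h a b c d + h' a b c d) = Q4 n h + Q4 n h' := by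
  unfold Q4
  simp only [Finset.sum_add_distrib]

theorem Q4_mul (n : ℕ) (t : ℝ) (h : ℕ → ℕ → ℕ → ℕ → ℝ) :
    Q4 n (fun a b c d => t * h a b c d) = t * Q4 n h := by
  unfold Q4
  simp only [Finset.mul_sum]

theorem Q4_mono {n n' : ℕ} (hn : n ≤ n') {h : ℕ → ℕ → ℕ → ℕ → ℝ}
    (H : ∀ a b c d, 0 ≤ h a b c d) : Q4 n h ≤ Q4 n' h := by
  unfold Q4
  have hs := Finset.range_subset_range.mpr hn
  refine le_trans (Finset.sum_le_sum fun a _ => ?_) (Finset.sum_le_sum_of_subset_of_nonneg hs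
    fun a _ _ => Finset.sum_nonneg fun b _ => Finset.sum_nonneg fun c _ =>
      Finset.sum_nonneg fun d _ => H a b c d)
  refine le_trans (Finset.sum_le_sum fun b _ => ?_) (Finset.sum_le_sum_of_subset_of_nonneg hs
    fun b _ _ => Finset.sum_nonneg fun c _ => Finset.sum_nonneg fun d _ => H a b c d)
  refine le_trans (Finset.sum_le_sum fun c _ => ?_) (Finset.sum_le_sum_of_subset_of_nonneg hs
    fun c _ _ => Finset.sum_nonneg fun d _ => H a b c d)
  exact Finset.sum_le_sum_of_subset_of_nonneg hs fun d _ _ => H a b c d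

theorem Q4_fin (n : ℕ) (h : ℕ → ℕ → ℕ → ℕ → ℝ) :
    ∑ x : Fin 4 → Fin n, h (x 0) (x 1) (x 2) (x 3) = Q4 n h := by
  let e : (Fin 4 → Fin n) ≃ Fin n × Fin n × Fin n × Fin n :=
    { toFun := fun x => (x 0, x 1, x 2, x 3)
      invFun := fun y => ![y.1, y.2.1, y.2.2.1, y.2.2.2]
      left_inv := fun x => by
        funext i
        fin_cases i <;> rfl
      right_inv := fun y => rfl }
  rw [Fintype.sum_equiv e (fun x => h (x 0) (x 1) (x 2) (x 3))
    (fun y => h y.1 y.2.1 y.2.2.1 y.2.2.2) (fun x => rfl)]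
  unfold Q4
  simp only [Fintype.sum_prod_type, Finset.sum_range]

/-- the triangular function -/
def tri (L : ℕ) (d : ℤ) : ℝ := max ((L : ℝ) - |(d : ℝ)|) 0

theorem pair_count (L : ℕ) (d : ℤ) :
    ∑ a ∈ range L, ∑ b ∈ range L, (if (a : ℤ) - b = d then (1 : ℝ) else 0) = tri L d := by
  induction L with
  | zero => simp [tri]
  | succ L ih =>
    simp only [Finset.sum_range_succ, Finset.sum_add_distrib, ih]
    have h1 : ∑ a ∈ range L, (if (a : ℤ) - L = d then (1 : ℝ) else 0) =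
        if -(L : ℤ) ≤ d ∧ d < 0 then 1 else 0 := by
      split_ifs with h
      · rw [Finset.sum_eq_single (d + L).toNat]
        · rw [if_pos (by omega)]
        · intro b _ hb
          rw [if_neg (by omega)]
        · intro hb
          exact absurd (mem_range.mpr (by omega)) hb
      · apply Finset.sum_eq_zero
        intro a ha
        rw [mem_range] at ha
        rw [if_neg (by omega)]
    have h2 : ∑ b ∈ range L, (if (L : ℤ) - b = d then (1 : ℝ) else 0) =
        if 0 < d ∧ d ≤ L then 1 else 0 := by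
      split_ifs with h
      · rw [Finset.sum_eq_single (L - d).toNat]
        · rw [if_pos (by omega)]
        · intro b _ hb
          rw [if_neg (by omega)]
        · intro hb
          exact absurd (mem_range.mpr (by omega)) hb
      · apply Finset.sum_eq_zero
        intro a ha
        rw [mem_range] at ha
        rw [if_neg (by omega)]
    rw [h1, h2]
    unfold tri
    have hz : ∀ z : ℤ, max ((z : ℝ)) 0 = ((max z 0 : ℤ) : ℝ) := fun z => by push_cast; rfl
    have a1 : ((L : ℝ) - |(d : ℝ)|) = (((L : ℤ) - |d| : ℤ) : ℝ) := by push_cast; rfl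
    have a2 : (((L + 1 : ℕ) : ℝ) - |(d : ℝ)|) = (((L : ℤ) + 1 - |d| : ℤ) : ℝ) := by push_cast; rfl
    rw [a1, a2, hz, hz]
    have key : max ((L : ℤ) - |d|) 0 + (if -(L : ℤ) ≤ d ∧ d < 0 then 1 else 0) +
        ((if 0 < d ∧ d ≤ L then 1 else 0) + (if (L : ℤ) - L = d then 1 else 0))
        = max ((L : ℤ) + 1 - |d|) 0 := by
      rcases abs_cases d with h | h <;> split_ifs <;> omega
    rw [← key]
    push_cast
    ring

/-- fiberwise summation over the difference -/
theorem sum_diff (L : ℕ) (φ : ℤ → ℝ) (F : ℕ → ℕ → ℝ) :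
    ∑ a ∈ range L, ∑ b ∈ range L, φ ((a : ℤ) - b) * F a b =
      ∑ d ∈ Ico (-(L : ℤ)) L, φ d *
        ∑ a ∈ range L, ∑ b ∈ range L, (if (a : ℤ) - b = d then F a b else 0) := by
  simp only [Finset.mul_sum]
  rw [Finset.sum_comm (s := Ico (-(L : ℤ)) L)]
  refine Finset.sum_congr rfl fun a ha => ?_
  rw [Finset.sum_comm]
  refine Finset.sum_congr rfl fun b hb => ?_
  rw [mem_range] at ha hb
  rw [Finset.sum_eq_single ((a : ℤ) - b)]
  · simp
  · intro d _ hd
    rw [if_neg (Ne.symm hd), mul_zero]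
  · intro hd
    exact absurd (mem_Ico.mpr ⟨by omega, by omega⟩) hd

theorem sum_Ico_shift (L : ℕ) (φ : ℤ → ℝ) :
    ∑ d ∈ Ico (-(L : ℤ)) L, φ d = ∑ x ∈ range (2 * L), φ ((x : ℤ) - L) := by
  symm
  apply Finset.sum_bij (fun (x : ℕ) _ => (x : ℤ) - L)
  · intro x hx
    rw [mem_range] at hx
    exact mem_Ico.mpr ⟨by omega, by omega⟩
  · intro x _ y _ h
    omega
  · intro d hd
    rw [mem_Ico] at hd
    exact ⟨(d + L).toNat, mem_range.mpr (by omega), by omega⟩
  · intro x _
    rfl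

/-- number of solutions inside a block configuration -/
noncomputable def NL (L : ℕ) (t : ℤ) : ℝ :=
  Q4 L (fun a b c d => if (a : ℤ) + 4 * c - b - 4 * d = t * L then 1 else 0)

theorem NL_eq (L : ℕ) (t : ℤ) :
    NL L t = ∑ x ∈ range (2 * L), tri L (t * L - 4 * ((x : ℤ) - L)) * tri L ((x : ℤ) - L) := by
  rw [← sum_Ico_shift L (fun e => tri L (t * L - 4 * e) * tri L e)]
  simp only [← pair_count L]
  rw [← sum_diff L (fun e => ∑ a ∈ range L, ∑ b ∈ range L,
    (if (a : ℤ) - b = t * L - 4 * e then (1 : ℝ) else 0)) (fun _ _ => 1)]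
  unfold NL Q4
  simp only [mul_one]
  have e1 : ∀ a : ℕ, ∑ b ∈ range L, ∑ c ∈ range L, ∑ d ∈ range L,
      (if (a : ℤ) + 4 * c - b - 4 * d = t * L then (1 : ℝ) else 0) =
      ∑ c ∈ range L, ∑ d ∈ range L, ∑ b ∈ range L,
      (if (a : ℤ) + 4 * c - b - 4 * d = t * L then (1 : ℝ) else 0) := by
    intro a
    rw [Finset.sum_comm]
    exact Finset.sum_congr rfl fun c _ => Finset.sum_comm
  simp only [e1]
  rw [Finset.sum_comm]
  refine Finset.sum_congr rfl fun c _ => ?_
  rw [Finset.sum_comm]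
  refine Finset.sum_congr rfl fun d _ => Finset.sum_congr rfl fun a _ =>
    Finset.sum_congr rfl fun b _ => ?_
  congr 1
  apply propext
  constructor <;> intro h <;> omega

theorem sum_quad (K : ℕ) (α β γ : ℝ) :
    ∑ j ∈ range K, (α + β * (j : ℝ) + γ * (j : ℝ) ^ 2) =
      α * K + β * ((K : ℝ) * (K - 1) / 2) + γ * ((K : ℝ) * (K - 1) * (2 * K - 1) / 6) := by
  induction K with
  | zero => simp
  | succ K ih =>
    rw [Finset.sum_range_succ, ih]
    push_cast
    ring

/-- six times the limiting weight -/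
def w6 (t : ℤ) : ℝ :=
  if t = 0 then 22 else if t = 4 ∨ t = -4 then 1 else if -4 < t ∧ t < 4 then 6 * (4 - |(t : ℝ)|) else 0

/-- the lower order term -/
def dl (t : ℤ) : ℝ := if t = 0 then 2 else if t = 4 ∨ t = -4 then -1 else 0

theorem tri_block (K j : ℕ) (hj : j < K) (s : ℤ) :
    tri (4 * K) (4 * (s * K - j)) =
      if s = 0 then 4 * ((K : ℝ) - j) else if s = 1 then 4 * (j : ℝ) else 0 := by
  have hj' : (j : ℝ) < K := by exact_mod_cast hj
  have hj0 : (0 : ℝ) ≤ j := by positivity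
  unfold tri
  push_cast
  split_ifs with h0 h1
  · subst h0
    rw [abs_of_nonpos (by simp), max_eq_left (by simp; linarith)]
    simp
    ring
  · subst h1
    rw [abs_of_nonneg (by simp; linarith), max_eq_left (by simp)]
    simp
    ring
  · apply max_eq_right
    rcases lt_or_gt_of_ne h0 with h | h
    · have : (s : ℝ) ≤ -1 := by exact_mod_cast (show s ≤ -1 by omega)
      rw [abs_of_nonpos (by nlinarith)]
      nlinarith
    · have : (2 : ℝ) ≤ s := by exact_mod_cast (show 2 ≤ s by omega)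
      rw [abs_of_nonneg (by nlinarith)]
      nlinarith

theorem tri_block' (K j : ℕ) (hj : j < K) (u : ℕ) (hu : u < 8) :
    tri (4 * K) (((u * K + j : ℕ) : ℤ) - (4 * K : ℕ)) =
      if u < 4 then (u : ℝ) * K + j else (8 - (u : ℝ)) * K - j := by
  have hj' : (j : ℝ) < K := by exact_mod_cast hj
  have hj0 : (0 : ℝ) ≤ j := by positivity
  unfold tri
  push_cast
  split_ifs with h0
  · have : (u : ℝ) ≤ 3 := by exact_mod_cast (show u ≤ 3 by omega)
    have hu0 : (0 : ℝ) ≤ u := by positivity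
    rw [abs_of_nonpos (by nlinarith), max_eq_left (by nlinarith)]
    ring
  · have : (4 : ℝ) ≤ u := by exact_mod_cast (show 4 ≤ u by omega)
    have : (u : ℝ) ≤ 7 := by exact_mod_cast (show u ≤ 7 by omega)
    rw [abs_of_nonneg (by nlinarith), max_eq_left (by nlinarith)]
    ring

theorem NL_formula (K : ℕ) (t : ℤ) :
    NL (4 * K) t = (4 * (K : ℝ) ^ 3 * w6 t + 4 * K * dl t) / 6 := by
  rw [NL_eq, show 2 * (4 * K) = 8 * K by ring, sum_mul_range]
  have h1 : ∀ u ∈ range 8, ∑ j ∈ range K,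
      tri (4 * K) (t * (4 * K : ℕ) - 4 * (((u * K + j : ℕ) : ℤ) - (4 * K : ℕ))) *
        tri (4 * K) (((u * K + j : ℕ) : ℤ) - (4 * K : ℕ)) =
      ∑ j ∈ range K, (if t + 4 - u = 0 then 4 * ((K : ℝ) - j) else if t + 4 - u = 1 then
        4 * (j : ℝ) else 0) * (if u < 4 then (u : ℝ) * K + j else (8 - (u : ℝ)) * K - j) := by
    intro u hu
    refine Finset.sum_congr rfl fun j hj => ?_
    rw [tri_block' K j (mem_range.mp hj) u (mem_range.mp hu),
      ← tri_block K j (mem_range.mp hj) (t + 4 - u)]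
    congr 2
    push_cast
    ring
  rw [Finset.sum_congr rfl h1]
  have hA : ∀ α β : ℝ, ∑ j ∈ range K, 4 * ((K : ℝ) - j) * (α + β * j) =
      4 * K * α * K + (4 * K * β - 4 * α) * ((K : ℝ) * (K - 1) / 2)
        + (-4 * β) * ((K : ℝ) * (K - 1) * (2 * K - 1) / 6) := by
    intro α β
    rw [← sum_quad]
    exact Finset.sum_congr rfl fun j _ => by ring
  have hB : ∀ α β : ℝ, ∑ j ∈ range K, 4 * (j : ℝ) * (α + β * j) =
      0 * K + (4 * α) * ((K : ℝ) * (K - 1) / 2)
        + (4 * β) * ((K : ℝ) * (K - 1) * (2 * K - 1) / 6) := by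
    intro α β
    rw [← sum_quad]
    exact Finset.sum_congr rfl fun j _ => by ring
  have hA1 : ∀ α : ℝ, ∑ j ∈ range K, 4 * ((K : ℝ) - j) * (α + j) = _ := fun α => by
    simpa only [one_mul] using hA α 1
  have hA2 : ∀ α : ℝ, ∑ j ∈ range K, 4 * ((K : ℝ) - j) * (α - j) = _ := fun α => by
    simpa only [neg_one_mul, ← sub_eq_add_neg] using hA α (-1)
  have hB1 : ∀ α : ℝ, ∑ j ∈ range K, 4 * (j : ℝ) * (α + j) = _ := fun α => by
    simpa only [one_mul] using hB α 1
  have hB2 : ∀ α : ℝ, ∑ j ∈ range K, 4 * (j : ℝ) * (α - j) = _ := fun α => by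
    simpa only [neg_one_mul, ← sub_eq_add_neg] using hB α (-1)
  have hA0 := hA1 0
  have hB0 := hB1 0
  simp only [zero_add] at hA0 hB0
  by_cases ht : -4 ≤ t ∧ t ≤ 4
  · obtain ⟨h2, h3⟩ := ht
    clear h1
    interval_cases t <;>
      simp only [Finset.sum_range_succ, Finset.sum_range_zero, w6, dl] <;>
      norm_num [hA0, hB0, hA1, hA2, hB1, hB2] <;> ring
  · have hw : w6 t = 0 := by
      unfold w6
      rw [if_neg (by omega), if_neg (by omega), if_neg (by omega)]
    have hd : dl t = 0 := by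
      unfold dl
      rw [if_neg (by omega), if_neg (by omega)]
    rw [hw, hd]
    simp only [mul_zero, add_zero, zero_div]
    apply Finset.sum_eq_zero
    intro u hu
    rw [mem_range] at hu
    apply Finset.sum_eq_zero
    intro j _
    rw [if_neg (by omega), if_neg (by omega), zero_mul]

/-- the indicator of the equation -/
def ind (a b c d : ℕ) : ℝ := if a + 4 * c = b + 4 * d then 1 else 0

theorem ind_nonneg (a b c d : ℕ) : 0 ≤ ind a b c d := by
  unfold ind
  split_ifs <;> norm_num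

theorem total_formula (K : ℕ) : Q4 (4 * K) ind = (44 * (K : ℝ) ^ 3 + 4 * K) / 3 := by
  have h := NL_formula K 0
  have h2 : NL (4 * K) 0 = Q4 (4 * K) ind := by
    unfold NL
    apply Q4_congr
    intro a _ b _ c _ d _
    unfold ind
    congr 1
    apply propext
    constructor <;> intro h <;> omega
  rw [← h2, h]
  simp [w6, dl]
  ring

end Pool.Agent.H128Z.Common
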