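import Mathlib
import Pool.Agent.H128Z.CommonA

/-!
The quadratic form that controls two-colourings for `x₁ + 4 x₃ = x₂ + 4 x₄`.
-/

set_option autoImplicit false

namespace Pool.Agent.H128Z.Common

open Finset

/-- the weight of the pairs with `a + 4 c = z` -/
def cv (n : ℕ) (F : ℕ → ℕ → ℝ) (z : ℕ) : ℝ :=
  ∑ a ∈ range n, ∑ c ∈ range n, if a + 4 * c = z then F a c else 0

theorem Q4_cv (n : ℕ) (F H : ℕ → ℕ → ℝ) :
    Q4 n (fun a b c d => ind a b c d * (F a c * H b d)) =
      ∑ z ∈ range (5 * n), cv n F z * cv n H z := by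
  unfold Q4 cv
  simp only [Finset.sum_mul_sum]
  rw [Finset.sum_comm (s := range (5 * n))]
  refine Finset.sum_congr rfl fun a ha => ?_
  rw [Finset.sum_comm (s := range (5 * n))]
  refine Finset.sum_congr rfl fun b _ => ?_
  rw [Finset.sum_comm (s := range (5 * n))]
  refine Finset.sum_congr rfl fun c hc => ?_
  rw [Finset.sum_comm (s := range (5 * n))]
  refine Finset.sum_congr rfl fun d _ => ?_
  rw [mem_range] at ha hc
  rw [Finset.sum_eq_single (a + 4 * c)]
  · unfold ind
    rw [if_pos rfl]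
    by_cases h : a + 4 * c = b + 4 * d
    · rw [if_pos h, if_pos h.symm, one_mul]
    · rw [if_neg h, if_neg (Ne.symm h), zero_mul, mul_zero]
  · intro z _ hz
    rw [if_neg (Ne.symm hz), zero_mul]
  · intro h
    exact absurd (mem_range.mpr (by omega)) h

/-- prefix sums -/
def pre (g : ℕ → ℝ) (t : ℕ) : ℝ := ∑ x ∈ range t, g x

section
variable {n : ℕ} {g : ℕ → ℝ}

theorem pre_zero : pre g 0 = 0 := by simp [pre]

theorem pre_succ (t : ℕ) : pre g (t + 1) = pre g t + g t := Finset.sum_range_succ _ _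

theorem pre_big (h0 : ∀ x, n ≤ x → g x = 0) (t : ℕ) (ht : n ≤ t) : pre g t = pre g n := by
  induction t, ht using Nat.le_induction with
  | base => rfl
  | succ t ht ih => rw [pre_succ, ih, h0 t ht, add_zero]

theorem pre_abs (h1 : ∀ x, |g x| ≤ 1) (s t : ℕ) : |pre g (s + t) - pre g s| ≤ t := by
  induction t with
  | zero => simp
  | succ t ih =>
    rw [← add_assoc, pre_succ]
    have := h1 (s + t)
    push_cast
    rw [abs_le] at *
    constructor <;> linarith [this.1, this.2, ih.1, ih.2]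

theorem sum_ite_lt (h0 : ∀ x, n ≤ x → g x = 0) (v : ℕ) :
    ∑ c ∈ range n, (if c < v then g c else 0) = pre g v := by
  rw [← Finset.sum_filter]
  unfold pre
  apply Finset.sum_subset
  · intro x hx
    rw [mem_filter] at hx
    exact mem_range.mpr hx.2
  · intro x hx hx2
    apply h0
    by_contra hc
    exact hx2 (mem_filter.mpr ⟨mem_range.mpr (by omega), mem_range.mp hx⟩)

theorem sum_single (n c z : ℕ) (f : ℕ → ℝ) :
    ∑ a ∈ range n, (if a + 4 * c = z then f a else 0) =
      if 4 * c ≤ z ∧ z < 4 * c + n then f (z - 4 * c) else 0 := by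
  split_ifs with h
  · rw [Finset.sum_eq_single (z - 4 * c)]
    · rw [if_pos (by omega)]
    · intro b _ hb
      rw [if_neg (by omega)]
    · intro hb
      exact absurd (mem_range.mpr (by omega)) hb
  · apply Finset.sum_eq_zero
    intro a ha
    rw [mem_range] at ha
    rw [if_neg (by omega)]

theorem alpha_eq (m : ℕ) (h0 : ∀ x, 4 * m ≤ x → g x = 0) (u ρ : ℕ) (hρ : ρ < 4) :
    cv (4 * m) (fun _ c => g c) (u * 4 + ρ) = pre g (u + 1) - pre g (u + 1 - m) := by
  unfold cv
  rw [Finset.sum_comm, ← sum_ite_lt h0, ← sum_ite_lt h0, ← Finset.sum_sub_distrib]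
  refine Finset.sum_congr rfl fun c _ => ?_
  rw [sum_single (4 * m) c (u * 4 + ρ) (fun _ => g c)]
  split_ifs <;> first | (exfalso; omega) | simp

theorem tele (w N : ℕ) :
    ∑ c ∈ range N, (if c ≤ w then pre g (4 * (w - c) + 4) - pre g (4 * (w - c)) else 0) =
      pre g (4 * (w + 1)) - pre g (4 * (w + 1 - N)) := by
  induction N with
  | zero => simp
  | succ N ih =>
    rw [Finset.sum_range_succ, ih]
    split_ifs with h
    · rw [show 4 * (w + 1 - N) = 4 * (w - N) + 4 by omega,
        show w + 1 - (N + 1) = w - N by omega]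
      ring
    · rw [show w + 1 - N = 0 by omega, show w + 1 - (N + 1) = 0 by omega]
      ring

theorem beta_sum (h0 : ∀ x, n ≤ x → g x = 0) (w : ℕ) :
    ∑ ρ ∈ range 4, cv n (fun a _ => g a) (w * 4 + ρ) =
      pre g (4 * (w + 1)) - pre g (4 * (w + 1 - n)) := by
  rw [← tele]
  unfold cv
  have e1 : ∀ ρ, ρ < 4 → ∑ a ∈ range n, ∑ c ∈ range n,
      (if a + 4 * c = w * 4 + ρ then g a else 0) =
      ∑ c ∈ range n, if c ≤ w then g (4 * (w - c) + ρ) else 0 := by
    intro ρ hρ
    rw [Finset.sum_comm]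
    refine Finset.sum_congr rfl fun c _ => ?_
    rw [sum_single n c (w * 4 + ρ) g]
    by_cases h : c ≤ w
    · rw [if_pos h, show 4 * (w - c) + ρ = w * 4 + ρ - 4 * c by omega]
      split_ifs with h2
      · rfl
      · rw [h0 _ (by omega)]
    · rw [if_neg h, if_neg (by omega)]
  rw [Finset.sum_congr rfl fun ρ hρ => e1 ρ (mem_range.mp hρ), Finset.sum_comm]
  refine Finset.sum_congr rfl fun c _ => ?_
  split_ifs
  · simp only [Finset.sum_range_succ, Finset.sum_range_zero, pre_succ]
    ring_nf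
  · simp

theorem shift_sum (N : ℕ) (f : ℕ → ℝ) :
    ∑ u ∈ range N, f (u + 1) = ∑ u ∈ range N, f u + f N - f 0 := by
  rw [← Finset.sum_range_succ, Finset.sum_range_succ']
  ring

theorem B_eq (m : ℕ) (h0 : ∀ x, 4 * m ≤ x → g x = 0) :
    Q4 (4 * m) (fun a b c d => ind a b c d * (g c * g d)) =
      4 * ∑ t ∈ range m, (pre g t ^ 2 + (pre g (m + t) - pre g t) ^ 2
        + (pre g (2 * m + t) - pre g (m + t)) ^ 2 + (pre g (3 * m + t) - pre g (2 * m + t)) ^ 2
        + (pre g (4 * m) - pre g (3 * m + t)) ^ 2) := by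
  rw [Q4_cv (4 * m) (fun _ c => g c) (fun _ d => g d), show 5 * (4 * m) = (5 * m) * 4 by ring,
    sum_mul_range]
  have e1 : ∀ u ∈ range (5 * m), ∑ ρ ∈ range 4, cv (4 * m) (fun _ c => g c) (u * 4 + ρ) *
      cv (4 * m) (fun _ c => g c) (u * 4 + ρ) = 4 * (pre g (u + 1) - pre g (u + 1 - m)) ^ 2 := by
    intro u _
    rw [Finset.sum_congr rfl fun ρ hρ => by rw [alpha_eq m h0 u ρ (mem_range.mp hρ)]]
    simp
    ring
  rw [Finset.sum_congr rfl e1, ← Finset.mul_sum,
    shift_sum (5 * m) (fun v => (pre g v - pre g (v - m)) ^ 2), sum_mul_range, Finset.sum_comm]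
  rw [pre_big h0 (5 * m) (by omega), show 5 * m - m = 4 * m by omega]
  simp only [Nat.zero_sub, sub_self, ne_eq, OfNat.ofNat_ne_zero, not_false_eq_true, zero_pow,
    add_zero, sub_zero]
  congr 1
  refine Finset.sum_congr rfl fun t ht => ?_
  rw [mem_range] at ht
  simp only [Finset.sum_range_succ, Finset.sum_range_zero]
  rw [show 0 * m + t - m = 0 by omega, show 0 * m + t = t by omega,
    show 1 * m + t - m = t by omega, show 1 * m + t = m + t by omega,
    show 2 * m + t - m = m + t by omega, show 3 * m + t - m = 2 * m + t by omega,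
    show 4 * m + t - m = 3 * m + t by omega, pre_big h0 (4 * m + t) (by omega), pre_zero]
  ring

theorem A_ge (m : ℕ) (h0 : ∀ x, 4 * m ≤ x → g x = 0) :
    7 / 8 * m * pre g (4 * m) ^ 2 + 1 / 2 * ∑ v ∈ range m, (pre g (4 * v) - pre g (4 * m) / 2) ^ 2
      ≤ Q4 (4 * m) (fun a b c d => ind a b c d * (g a * g b)) := by
  rw [Q4_cv (4 * m) (fun a _ => g a) (fun b _ => g b), show 5 * (4 * m) = (5 * m) * 4 by ring,
    sum_mul_range]
  have e1 : ∀ w ∈ range (5 * m), 1 / 4 * (pre g (4 * (w + 1)) - pre g (4 * (w + 1 - 4 * m))) ^ 2 ≤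
      ∑ ρ ∈ range 4, cv (4 * m) (fun a _ => g a) (w * 4 + ρ) *
        cv (4 * m) (fun a _ => g a) (w * 4 + ρ) := by
    intro w _
    rw [← beta_sum h0 w]
    simp only [Finset.sum_range_succ, Finset.sum_range_zero]
    generalize cv (4 * m) (fun a _ => g a) (w * 4 + 0) = x0
    generalize cv (4 * m) (fun a _ => g a) (w * 4 + 1) = x1
    generalize cv (4 * m) (fun a _ => g a) (w * 4 + 2) = x2
    generalize cv (4 * m) (fun a _ => g a) (w * 4 + 3) = x3
    nlinarith [sq_nonneg (x0 - x1), sq_nonneg (x0 - x2), sq_nonneg (x0 - x3), sq_nonneg (x1 - x2),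
      sq_nonneg (x1 - x3), sq_nonneg (x2 - x3)]
  refine le_trans (le_of_eq ?_) (Finset.sum_le_sum e1)
  rw [← Finset.mul_sum,
    shift_sum (5 * m) (fun v => (pre g (4 * v) - pre g (4 * (v - 4 * m))) ^ 2), sum_mul_range,
    Finset.sum_comm]
  rw [pre_big h0 (4 * (5 * m)) (by omega), show 5 * m - 4 * m = m by omega]
  have e2 : ∀ t ∈ range m, ∑ j ∈ range 5,
      (pre g (4 * (j * m + t)) - pre g (4 * (j * m + t - 4 * m))) ^ 2 =
      7 / 2 * pre g (4 * m) ^ 2 + 2 * (pre g (4 * t) - pre g (4 * m) / 2) ^ 2 := by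
    intro t ht
    rw [mem_range] at ht
    simp only [Finset.sum_range_succ, Finset.sum_range_zero]
    rw [show 0 * m + t - 4 * m = 0 by omega, show 0 * m + t = t by omega,
      show 1 * m + t - 4 * m = 0 by omega, show 2 * m + t - 4 * m = 0 by omega,
      show 3 * m + t - 4 * m = 0 by omega, show 4 * m + t - 4 * m = t by omega,
      pre_big h0 (4 * (1 * m + t)) (by omega), pre_big h0 (4 * (2 * m + t)) (by omega),
      pre_big h0 (4 * (3 * m + t)) (by omega), pre_big h0 (4 * (4 * m + t)) (by omega),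
      mul_zero, pre_zero]
    ring
  rw [Finset.sum_congr rfl e2, Finset.sum_add_distrib, ← Finset.mul_sum (a := (2 : ℝ))]
  simp only [Finset.sum_const, card_range, nsmul_eq_mul, Nat.zero_sub, mul_zero, sub_self]
  ring

/-- the symmetric cross-correlation with the indicator of `[0, n)` -/
def xi (n : ℕ) (g : ℕ → ℝ) (k : ℕ) : ℝ := pre g n - pre g k + pre g (n - k)

theorem xi_nat (h0 : ∀ x, n ≤ x → g x = 0) (k : ℕ) :
    ∑ a ∈ range n, ∑ b ∈ range n, (if (a : ℤ) - b = k then g a + g b else 0) = xi n g k := by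
  have e1 : ∀ a b : ℕ, (if (a : ℤ) - b = k then g a + g b else 0) =
      (if (a : ℤ) - b = k then g a else 0) + (if (a : ℤ) - b = k then g b else 0) := by
    intro a b
    split_ifs <;> simp
  simp only [e1, Finset.sum_add_distrib]
  have h1 : ∑ a ∈ range n, ∑ b ∈ range n, (if (a : ℤ) - b = k then g a else 0) =
      pre g n - pre g k := by
    rw [← sum_ite_lt h0 k]
    unfold pre
    rw [← Finset.sum_sub_distrib]
    refine Finset.sum_congr rfl fun a ha => ?_
    rw [mem_range] at ha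
    split_ifs with h
    · rw [sub_self]
      apply Finset.sum_eq_zero
      intro b _
      rw [if_neg (by omega)]
    · rw [Finset.sum_eq_single (a - k)]
      · rw [if_pos (by omega), sub_zero]
      · intro b _ hb
        rw [if_neg (by omega)]
      · intro hb
        exact absurd (mem_range.mpr (by omega)) hb
  have h2 : ∑ a ∈ range n, ∑ b ∈ range n, (if (a : ℤ) - b = k then g b else 0) =
      pre g (n - k) := by
    rw [← sum_ite_lt h0 (n - k), Finset.sum_comm]
    refine Finset.sum_congr rfl fun b _ => ?_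
    split_ifs with h
    · rw [Finset.sum_eq_single (b + k)]
      · rw [if_pos (by push_cast; omega)]
      · intro a _ ha
        rw [if_neg (by omega)]
      · intro hb
        exact absurd (mem_range.mpr (by omega)) hb
    · apply Finset.sum_eq_zero
      intro a ha
      rw [mem_range] at ha
      rw [if_neg (by omega)]
  rw [h1, h2]
  rfl

theorem xi_int (h0 : ∀ x, n ≤ x → g x = 0) (d : ℤ) :
    ∑ a ∈ range n, ∑ b ∈ range n, (if (a : ℤ) - b = d then g a + g b else 0) =
      xi n g d.natAbs := by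
  rw [← xi_nat h0]
  rcases le_total 0 d with h | h
  · rw [Int.natAbs_of_nonneg h]
  · rw [Finset.sum_comm]
    refine Finset.sum_congr rfl fun a _ => Finset.sum_congr rfl fun b _ => ?_
    rw [add_comm (g b)]
    congr 1
    apply propext
    constructor <;> intro h2 <;> omega

theorem cross_eq (m : ℕ) (h0 : ∀ x, 4 * m ≤ x → g x = 0) :
    Q4 (4 * m) (fun a b c d => ind a b c d * ((g a + g b) * (g c + g d))) =
      2 * ∑ k ∈ range m, xi (4 * m) g (4 * k) * xi (4 * m) g k - 4 * pre g (4 * m) ^ 2 := by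
  set n := 4 * m with hn
  have e0 : Q4 n (fun a b c d => ind a b c d * ((g a + g b) * (g c + g d))) =
      ∑ c ∈ range n, ∑ d ∈ range n, xi n g (4 * ((c : ℤ) - d).natAbs) * (g c + g d) := by
    unfold Q4
    have e1 : ∀ a : ℕ, ∑ b ∈ range n, ∑ c ∈ range n, ∑ d ∈ range n,
        ind a b c d * ((g a + g b) * (g c + g d)) =
        ∑ c ∈ range n, ∑ d ∈ range n, ∑ b ∈ range n,
        ind a b c d * ((g a + g b) * (g c + g d)) := by
      intro a
      rw [Finset.sum_comm]
      exact Finset.sum_congr rfl fun c _ => Finset.sum_comm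
    simp only [e1]
    rw [Finset.sum_comm]
    refine Finset.sum_congr rfl fun c _ => ?_
    rw [Finset.sum_comm]
    refine Finset.sum_congr rfl fun d _ => ?_
    rw [show 4 * ((c : ℤ) - d).natAbs = (-4 * ((c : ℤ) - d)).natAbs by omega, ← xi_int h0,
      Finset.sum_mul]
    refine Finset.sum_congr rfl fun a _ => ?_
    rw [Finset.sum_mul]
    refine Finset.sum_congr rfl fun b _ => ?_
    unfold ind
    by_cases h : a + 4 * c = b + 4 * d
    · rw [if_pos h, if_pos (by omega), one_mul]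
    · rw [if_neg h, if_neg (by omega), zero_mul, zero_mul]
  rw [e0, sum_diff n (fun e => xi n g (4 * e.natAbs)) (fun c d => g c + g d)]
  simp only [xi_int h0]
  rw [sum_Ico_shift n (fun e => xi n g (4 * e.natAbs) * xi n g e.natAbs), two_mul n,
    Finset.sum_range_add]
  set ψ : ℕ → ℝ := fun k => xi n g (4 * k) * xi n g k with hψ
  have hz : ∀ k, m ≤ k → ψ k = 0 := by
    intro k hk
    have : xi n g (4 * k) = 0 := by
      unfold xi
      rw [pre_big h0 (4 * k) (by omega), show n - 4 * k = 0 by omega, pre_zero]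
      ring
    simp only [hψ, this, zero_mul]
  have hcut : ∑ k ∈ range n, ψ k = ∑ k ∈ range m, ψ k := by
    symm
    apply Finset.sum_subset (Finset.range_subset_range.mpr (by omega))
    intro k _ hk
    exact hz k (by simpa using hk)
  have h1 : ∑ x ∈ range n, xi n g (4 * ((x : ℤ) - n).natAbs) * xi n g ((x : ℤ) - n).natAbs =
      ∑ k ∈ range n, ψ (k + 1) := by
    rw [← Finset.sum_range_reflect (fun k => ψ (k + 1)) n]
    refine Finset.sum_congr rfl fun x hx => ?_
    rw [mem_range] at hx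
    rw [show ((x : ℤ) - n).natAbs = n - 1 - x + 1 by omega]
  have h2 : ∑ x ∈ range n, xi n g (4 * (((n + x : ℕ) : ℤ) - n).natAbs) *
      xi n g (((n + x : ℕ) : ℤ) - n).natAbs = ∑ k ∈ range n, ψ k := by
    refine Finset.sum_congr rfl fun x _ => ?_
    rw [show (((n + x : ℕ) : ℤ) - n).natAbs = x by omega]
  rw [h1, h2, shift_sum n ψ, hcut, hz n (by omega)]
  have h3 : ψ 0 = 4 * pre g n ^ 2 := by
    simp only [hψ, xi, mul_zero, Nat.sub_zero, pre_zero]
    ring
  rw [h3]
  ring

theorem reflect4 (m : ℕ) (f : ℕ → ℝ) :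
    ∑ k ∈ range m, f (4 * m - 4 * k) = ∑ k ∈ range m, f (4 * k) + f (4 * m) - f 0 := by
  have := shift_sum m (fun k => f (4 * k))
  simp only [mul_zero] at this
  rw [← this, ← Finset.sum_range_reflect (fun k => f (4 * (k + 1))) m]
  refine Finset.sum_congr rfl fun k hk => ?_
  rw [mem_range] at hk
  rw [show 4 * (m - 1 - k + 1) = 4 * m - 4 * k by omega]

theorem reflect1 (m : ℕ) (f : ℕ → ℝ) :
    ∑ k ∈ range m, f (4 * m - k) = ∑ t ∈ range m, f (3 * m + t) + f (4 * m) - f (3 * m) := by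
  have := shift_sum m (fun k => f (3 * m + k))
  simp only [add_zero] at this
  rw [show 3 * m + m = 4 * m by ring] at this
  rw [← this, ← Finset.sum_range_reflect (fun k => f (3 * m + (k + 1))) m]
  refine Finset.sum_congr rfl fun k hk => ?_
  rw [mem_range] at hk
  rw [show 3 * m + (m - 1 - k + 1) = 4 * m - k by omega]

theorem cross_ge (m : ℕ) (h0 : ∀ x, 4 * m ≤ x → g x = 0) (h1 : ∀ x, |g x| ≤ 1) :
    4 * m * pre g (4 * m) ^ 2
      - 2 * pre g (4 * m) * ∑ t ∈ range m, (pre g t + (pre g (4 * m) - pre g (3 * m + t)))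
      - 9 / 4 * ∑ t ∈ range m, (pre g t ^ 2 + (pre g (4 * m) - pre g (3 * m + t)) ^ 2)
      - 32 / 9 * ∑ v ∈ range m, (pre g (4 * v) - pre g (4 * m) / 2) ^ 2 - 8 * (m : ℝ) ^ 2
      ≤ Q4 (4 * m) (fun a b c d => ind a b c d * ((g a + g b) * (g c + g d))) := by
  rw [cross_eq m h0]
  set S := pre g (4 * m) with hS
  have e1 : ∀ k ∈ range m, 4 * S ^ 2 + 4 * S * (pre g (4 * m - 4 * k) - pre g (4 * k))
      - 2 * S * (pre g k + (S - pre g (4 * m - k)))
      - 9 / 4 * (pre g k ^ 2 + (S - pre g (4 * m - k)) ^ 2)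
      - 16 / 9 * ((pre g (4 * k) - S / 2) ^ 2 + (pre g (4 * m - 4 * k) - S / 2) ^ 2)
      ≤ 2 * (xi (4 * m) g (4 * k) * xi (4 * m) g k) := by
    intro k _
    unfold xi
    rw [← hS]
    generalize pre g (4 * m - 4 * k) = p
    generalize pre g (4 * k) = q
    generalize pre g (4 * m - k) = u
    generalize pre g k = v
    nlinarith [sq_nonneg (9 * (v + (S - u)) - 8 * (p - q)), sq_nonneg (v - (S - u)),
      sq_nonneg (p + q - S)]
  have e2 := Finset.sum_le_sum e1
  rw [← Finset.mul_sum] at e2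
  simp only [Finset.sum_sub_distrib, Finset.sum_add_distrib, ← Finset.mul_sum, Finset.sum_const,
    card_range, nsmul_eq_mul] at e2 ⊢
  have r1 := reflect4 m (pre g)
  have r2 := reflect4 m (fun x => (pre g x - S / 2) ^ 2)
  have r3 := reflect1 m (pre g)
  have r4 := reflect1 m (fun x => (S - pre g x) ^ 2)
  simp only [← hS, pre_zero] at r1 r2 r3 r4
  rw [r1, r2, r3, r4] at e2
  have b1 : |S| ≤ 4 * m := by
    have := pre_abs h1 0 (4 * m)
    rw [zero_add, pre_zero, sub_zero] at this
    exact_mod_cast this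
  have b2 : |S - pre g (3 * m)| ≤ m := by
    have := pre_abs h1 (3 * m) m
    rwa [show 3 * m + m = 4 * m by ring] at this
  have b3 : |S * (S - pre g (3 * m))| ≤ 4 * m * m := by
    rw [abs_mul]
    exact mul_le_mul b1 b2 (abs_nonneg _) (by positivity)
  have b4 := (abs_le.mp b3).1
  nlinarith [sq_nonneg (S - pre g (3 * m))]

theorem sample_le (m : ℕ) (h1 : ∀ x, |g x| ≤ 1) :
    ∑ v ∈ range m, (pre g (4 * v) - pre g (4 * m) / 2) ^ 2 ≤
      1 / 4 * ∑ t ∈ range m, ((pre g t - pre g (4 * m) / 2) ^ 2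
        + (pre g (m + t) - pre g (4 * m) / 2) ^ 2 + (pre g (2 * m + t) - pre g (4 * m) / 2) ^ 2
        + (pre g (3 * m + t) - pre g (4 * m) / 2) ^ 2) + 36 * (m : ℝ) ^ 2 := by
  set S := pre g (4 * m) with hS
  have b1 : |S| ≤ 4 * m := by
    have := pre_abs h1 0 (4 * m)
    rw [zero_add, pre_zero, sub_zero] at this
    exact_mod_cast this
  have e0 : ∑ t ∈ range m, ((pre g t - S / 2) ^ 2 + (pre g (m + t) - S / 2) ^ 2
      + (pre g (2 * m + t) - S / 2) ^ 2 + (pre g (3 * m + t) - S / 2) ^ 2) =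
      ∑ v ∈ range m, ∑ ρ ∈ range 4, (pre g (v * 4 + ρ) - S / 2) ^ 2 := by
    rw [← sum_mul_range m 4 (fun x => (pre g x - S / 2) ^ 2), mul_comm m 4, sum_mul_range,
      Finset.sum_comm]
    refine Finset.sum_congr rfl fun t _ => ?_
    simp only [Finset.sum_range_succ, Finset.sum_range_zero, zero_mul, zero_add, one_mul]
  have e1 : ∀ v ∈ range m, (pre g (4 * v) - S / 2) ^ 2 ≤
      1 / 4 * ∑ ρ ∈ range 4, (pre g (v * 4 + ρ) - S / 2) ^ 2 + 36 * m := by
    intro v hv
    rw [mem_range] at hv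
    have b2 : |pre g (4 * v)| ≤ 4 * m := by
      have := pre_abs h1 0 (4 * v)
      rw [zero_add, pre_zero, sub_zero] at this
      refine this.trans ?_
      exact_mod_cast (show 4 * v ≤ 4 * m by omega)
    have e2 : ∀ ρ ∈ range 4, (pre g (4 * v) - S / 2) ^ 2 - 36 * m ≤
        (pre g (v * 4 + ρ) - S / 2) ^ 2 := by
      intro ρ hρ
      rw [mem_range] at hρ
      have b3 := pre_abs h1 (4 * v) ρ
      have b4 : (ρ : ℝ) ≤ 3 := by exact_mod_cast (show ρ ≤ 3 by omega)
      rw [mul_comm v 4]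
      have b5 : |pre g (4 * v) - S / 2| ≤ 6 * m := by
        rw [abs_le] at *
        constructor <;> linarith [b1.1, b1.2, b2.1, b2.2]
      have b6 : |(pre g (4 * v) - S / 2) * (pre g (4 * v + ρ) - pre g (4 * v))| ≤ 6 * m * 3 := by
        rw [abs_mul]
        exact mul_le_mul b5 (b3.trans b4) (abs_nonneg _) (by positivity)
      have b7 := (abs_le.mp b6).1
      nlinarith [sq_nonneg (pre g (4 * v + ρ) - pre g (4 * v))]
    have e3 := Finset.sum_le_sum e2
    simp only [Finset.sum_const, card_range, nsmul_eq_mul] at e3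
    push_cast at e3
    linarith
  have e4 := Finset.sum_le_sum e1
  rw [Finset.sum_add_distrib, ← Finset.mul_sum] at e4
  simp only [Finset.sum_const, card_range, nsmul_eq_mul] at e4
  rw [e0]
  nlinarith

theorem chain_psd (S a b c d : ℝ) :
    0 ≤ 39 / 8 * S ^ 2
      - 55 / 72 * ((a - S / 2) ^ 2 + (b - S / 2) ^ 2 + (c - S / 2) ^ 2 + (d - S / 2) ^ 2)
      + 4 * (a ^ 2 + (b - a) ^ 2 + (c - b) ^ 2 + (d - c) ^ 2 + (S - d) ^ 2)
      - 2 * S * (a + (S - d)) - 9 / 4 * (a ^ 2 + (S - d) ^ 2) := by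
  nlinarith [sq_nonneg (359 * (a + d - S) - 288 * (b + c - S)), sq_nonneg (b + c - S),
    sq_nonneg (809 * (b - c) - 288 * (a - d)), sq_nonneg (a - d),
    sq_nonneg (39 * S - 8 * (S + a - d)), sq_nonneg (S + a - d)]

theorem quad_ge (m : ℕ) (h0 : ∀ x, 4 * m ≤ x → g x = 0) (h1 : ∀ x, |g x| ≤ 1) :
    -(118 * (m : ℝ) ^ 2) ≤ Q4 (4 * m) (fun a b c d => ind a b c d * (g a * g b))
      + Q4 (4 * m) (fun a b c d => ind a b c d * (g c * g d))
      + Q4 (4 * m) (fun a b c d => ind a b c d * ((g a + g b) * (g c + g d))) := by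
  have hA := A_ge m h0
  have hB := B_eq m h0
  have hC := cross_ge m h0 h1
  have hD := sample_le m h1
  have hE := Finset.sum_nonneg (s := range m) fun t _ =>
    chain_psd (pre g (4 * m)) (pre g t) (pre g (m + t)) (pre g (2 * m + t)) (pre g (3 * m + t))
  rw [Finset.sum_sub_distrib, Finset.sum_sub_distrib, Finset.sum_add_distrib,
    Finset.sum_sub_distrib, ← Finset.mul_sum, ← Finset.mul_sum, ← Finset.mul_sum, ← Finset.mul_sum,
    ← Finset.mul_sum] at hE
  simp only [Finset.sum_const, card_range, nsmul_eq_mul] at hE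
  linarith

theorem quartic_nonneg (n : ℕ) (g : ℕ → ℝ) :
    0 ≤ Q4 n (fun a b c d => ind a b c d * ((g a * g c) * (g b * g d))) := by
  rw [Q4_cv n (fun a c => g a * g c) (fun b d => g b * g d)]
  exact Finset.sum_nonneg fun z _ => mul_self_nonneg _

end

/-- Two-colourings: at least one eighth of the solutions, up to a quadratic error. -/
theorem two_colour (m : ℕ) (col : ℕ → Fin 2) :
    1 / 8 * (Q4 (4 * m) ind - 118 * (m : ℝ) ^ 2) ≤
      Q4 (4 * m) (fun a b c d => ind a b c d *
        (if col a = col b ∧ col a = col c ∧ col a = col d then 1 else 0)) := by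
  set g : ℕ → ℝ := fun x => if x < 4 * m then (if col x = 0 then 1 else -1) else 0 with hg
  have h0 : ∀ x, 4 * m ≤ x → g x = 0 := fun x hx => by
    simp only [hg]
    rw [if_neg (by omega)]
  have h1 : ∀ x, |g x| ≤ 1 := fun x => by
    simp only [hg]
    split_ifs <;> simp
  have hq := quad_ge m h0 h1
  have h4 := quartic_nonneg (4 * m) g
  have e : Q4 (4 * m) (fun a b c d => ind a b c d *
        (if col a = col b ∧ col a = col c ∧ col a = col d then 1 else 0)) =
      Q4 (4 * m) (fun a b c d => 1 / 8 * ((((ind a b c d + ind a b c d * (g a * g b))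
        + ind a b c d * (g c * g d)) + ind a b c d * ((g a + g b) * (g c + g d)))
        + ind a b c d * ((g a * g c) * (g b * g d)))) := by
    apply Q4_congr
    intro a ha b hb c hc d hd
    simp only [hg, ha, hb, hc, hd, if_true]
    generalize col a = x1
    generalize col b = x2
    generalize col c = x3
    generalize col d = x4
    fin_cases x1 <;> fin_cases x2 <;> fin_cases x3 <;> fin_cases x4 <;> simp <;> ring
  rw [e, Q4_mul, Q4_add, Q4_add, Q4_add, Q4_add]
  have : Q4 (4 * m) (fun a b c d => ind a b c d) = Q4 (4 * m) ind := rfl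
  rw [this]
  linarith

end Pool.Agent.H128Z.Common
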