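import Mathlib
import Pool.Agent.H128Z.CommonA

/-!
Random colourings that are constant in law on blocks, for `x₁ + 4 x₃ = x₂ + 4 x₄`.
-/

set_option autoImplicit false

namespace Pool.Agent.H128Z.Common

open Finset

theorem expect_point {ι κ : Type} [Fintype ι] [DecidableEq ι] [Fintype κ] [DecidableEq κ]
    (π : ι → κ → ℝ) (h1 : ∀ x, ∑ u, π x u = 1) (T : Finset ι) (v : κ) :
    ∑ c : ι → κ, (∏ x, π x (c x)) * (if ∀ y ∈ T, c y = v then 1 else 0) = ∏ y ∈ T, π y v := by
  have e1 : ∀ c : ι → κ, (∏ x, π x (c x)) * (if ∀ y ∈ T, c y = v then (1 : ℝ) else 0) =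
      ∏ x, (π x (c x) * (if x ∈ T then (if c x = v then 1 else 0) else 1)) := by
    intro c
    rw [Finset.prod_mul_distrib]
    congr 1
    split_ifs with h
    · symm
      apply Finset.prod_eq_one
      intro x _
      split_ifs with h2 h3
      · rfl
      · exact absurd (h x h2) h3
      · rfl
    · symm
      push Not at h
      obtain ⟨y, hy, hy2⟩ := h
      exact Finset.prod_eq_zero (Finset.mem_univ y) (by rw [if_pos hy, if_neg hy2])
  simp only [e1]
  have e2 := Finset.prod_univ_sum (fun _ : ι => (Finset.univ : Finset κ))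
    (fun x u => π x u * (if x ∈ T then (if u = v then (1 : ℝ) else 0) else 1))
  rw [Fintype.piFinset_univ] at e2
  rw [← e2]
  have e3 : ∀ x, ∑ u, π x u * (if x ∈ T then (if u = v then (1 : ℝ) else 0) else 1) =
      if x ∈ T then π x v else 1 := by
    intro x
    split_ifs with h
    · simp
    · simp [h1 x]
  simp only [e3]
  rw [Finset.prod_ite_mem, Finset.univ_inter]

theorem expect_one {ι κ : Type} [Fintype ι] [DecidableEq ι] [Fintype κ] [DecidableEq κ]
    (π : ι → κ → ℝ) (h1 : ∀ x, ∑ u, π x u = 1) :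
    ∑ c : ι → κ, (∏ x, π x (c x)) = 1 := by
  have e2 := Finset.prod_univ_sum (fun _ : ι => (Finset.univ : Finset κ)) π
  rw [Fintype.piFinset_univ] at e2
  rw [← e2]
  simp [h1]

theorem expect_mono {ι κ : Type} [Fintype ι] [DecidableEq ι] [Fintype κ] [DecidableEq κ]
    (π : ι → κ → ℝ) (h0 : ∀ x u, 0 ≤ π x u) (h1 : ∀ x, ∑ u, π x u = 1) (a b c d : ι) :
    ∑ col : ι → κ, (∏ x, π x (col x)) *
        (if col a = col b ∧ col a = col c ∧ col a = col d then 1 else 0) ≤
      ∑ v, π a v * π b v * π c v * π d v +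
        (if a ≠ b ∧ a ≠ c ∧ a ≠ d ∧ b ≠ c ∧ b ≠ d ∧ c ≠ d then 0 else 1) := by
  by_cases h : a ≠ b ∧ a ≠ c ∧ a ≠ d ∧ b ≠ c ∧ b ≠ d ∧ c ≠ d
  · rw [if_pos h, add_zero]
    obtain ⟨hab, hac, had, hbc, hbd, hcd⟩ := h
    have e1 : ∀ col : ι → κ,
        (if col a = col b ∧ col a = col c ∧ col a = col d then (1 : ℝ) else 0) =
        ∑ v, (if ∀ y ∈ ({a, b, c, d} : Finset ι), col y = v then 1 else 0) := by
      intro col
      rw [Finset.sum_eq_single (col a)]
      · congr 1
        apply propext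
        simp only [mem_insert, mem_singleton, forall_eq_or_imp, forall_eq, true_and]
        constructor
        · rintro ⟨h1, h2, h3⟩
          exact ⟨h1.symm, h2.symm, h3.symm⟩
        · rintro ⟨h1, h2, h3⟩
          exact ⟨h1.symm, h2.symm, h3.symm⟩
      · intro v _ hv
        rw [if_neg]
        intro h
        exact hv (h a (by simp)).symm
      · intro h
        exact absurd (Finset.mem_univ _) h
    simp only [e1, Finset.mul_sum]
    rw [Finset.sum_comm]
    apply le_of_eq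
    refine Finset.sum_congr rfl fun v _ => ?_
    rw [expect_point π h1, Finset.prod_insert (by simp [hab, hac, had]),
      Finset.prod_insert (by simp [hbc, hbd]), Finset.prod_insert (by simp [hcd]),
      Finset.prod_singleton]
    ring
  · rw [if_neg h]
    have e1 : 0 ≤ ∑ v, π a v * π b v * π c v * π d v := Finset.sum_nonneg fun v _ =>
      mul_nonneg (mul_nonneg (mul_nonneg (h0 _ _) (h0 _ _)) (h0 _ _)) (h0 _ _)
    have e2 : ∑ col : ι → κ, (∏ x, π x (col x)) *
        (if col a = col b ∧ col a = col c ∧ col a = col d then (1 : ℝ) else 0) ≤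
        ∑ col : ι → κ, (∏ x, π x (col x)) := by
      refine Finset.sum_le_sum fun col _ => ?_
      have : 0 ≤ ∏ x, π x (col x) := Finset.prod_nonneg fun x _ => h0 _ _
      split_ifs
      · rw [mul_one]
      · rw [mul_zero]
        exact this
    rw [expect_one π h1] at e2
    linarith

theorem exists_le_expect {ι κ : Type} [Fintype ι] [DecidableEq ι] [Fintype κ] [DecidableEq κ]
    (π : ι → κ → ℝ) (h0 : ∀ x u, 0 ≤ π x u) (h1 : ∀ x, ∑ u, π x u = 1) (X : (ι → κ) → ℝ) (t : ℝ)
    (h : ∀ col, t < X col) : t < ∑ col : ι → κ, (∏ x, π x (col x)) * X col := by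
  have hw : ∀ col : ι → κ, 0 ≤ ∏ x, π x (col x) := fun col => Finset.prod_nonneg fun x _ => h0 _ _
  have e1 := expect_one π h1
  obtain ⟨col0, hcol0⟩ : ∃ col : ι → κ, 0 < ∏ x, π x (col x) := by
    by_contra hc
    push Not at hc
    have : ∑ col : ι → κ, (∏ x, π x (col x)) ≤ 0 := Finset.sum_nonpos fun col _ => hc col
    linarith
  have e2 : ∑ col : ι → κ, (∏ x, π x (col x)) * t < ∑ col : ι → κ, (∏ x, π x (col x)) * X col :=
    Finset.sum_lt_sum (fun col _ => mul_le_mul_of_nonneg_left (h col).le (hw col))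
      ⟨col0, Finset.mem_univ _, mul_lt_mul_of_pos_left (h col0) hcol0⟩
  rwa [← Finset.sum_mul, e1, one_mul] at e2

theorem single_le (n u : ℕ) : ∑ a ∈ range n, (if a = u then (1 : ℝ) else 0) ≤ 1 := by
  rw [Finset.sum_ite_eq']
  split_ifs <;> norm_num

theorem deg1 (n : ℕ) (φ ψ : ℕ → ℕ → ℕ) :
    Q4 n (fun a b c d => if a = φ c d ∧ b = ψ c d then 1 else 0) ≤ (n : ℝ) ^ 2 := by
  unfold Q4
  have e1 : ∀ a : ℕ, ∑ b ∈ range n, ∑ c ∈ range n, ∑ d ∈ range n,
      (if a = φ c d ∧ b = ψ c d then (1 : ℝ) else 0) =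
      ∑ c ∈ range n, ∑ d ∈ range n, ∑ b ∈ range n,
      (if a = φ c d ∧ b = ψ c d then (1 : ℝ) else 0) := by
    intro a
    rw [Finset.sum_comm]
    exact Finset.sum_congr rfl fun c _ => Finset.sum_comm
  simp only [e1]
  rw [Finset.sum_comm]
  have e2 : ∀ c ∈ range n, ∑ a ∈ range n, ∑ d ∈ range n, ∑ b ∈ range n,
      (if a = φ c d ∧ b = ψ c d then (1 : ℝ) else 0) ≤ n := by
    intro c _
    rw [Finset.sum_comm]
    have e3 : ∀ d ∈ range n, ∑ a ∈ range n, ∑ b ∈ range n,
        (if a = φ c d ∧ b = ψ c d then (1 : ℝ) else 0) ≤ 1 := by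
      intro d _
      refine le_trans (Finset.sum_le_sum fun a _ => ?_) (single_le n (φ c d))
      by_cases ha : a = φ c d
      · simp only [ha, true_and, if_true]
        exact single_le n _
      · simp [ha]
    simpa using Finset.sum_le_sum e3
  have := Finset.sum_le_sum e2
  simp only [Finset.sum_const, card_range, nsmul_eq_mul] at this
  rw [sq]
  exact this

theorem deg2 (n : ℕ) :
    Q4 n (fun a b c d => if b = a ∧ d = c then 1 else 0) ≤ (n : ℝ) ^ 2 := by
  unfold Q4
  have e2 : ∀ a ∈ range n, ∑ b ∈ range n, ∑ c ∈ range n, ∑ d ∈ range n,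
      (if b = a ∧ d = c then (1 : ℝ) else 0) ≤ n := by
    intro a _
    rw [Finset.sum_comm]
    have e3 : ∀ c ∈ range n, ∑ b ∈ range n, ∑ d ∈ range n,
        (if b = a ∧ d = c then (1 : ℝ) else 0) ≤ 1 := by
      intro c _
      refine le_trans (Finset.sum_le_sum fun b _ => ?_) (single_le n a)
      by_cases hb : b = a
      · simp only [hb, true_and, if_true]
        exact single_le n _
      · simp [hb]
    simpa using Finset.sum_le_sum e3
  have := Finset.sum_le_sum e2
  simp only [Finset.sum_const, card_range, nsmul_eq_mul] at this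
  rw [sq]
  exact this

theorem deg_le (n : ℕ) :
    Q4 n (fun a b c d => ind a b c d *
      (if a ≠ b ∧ a ≠ c ∧ a ≠ d ∧ b ≠ c ∧ b ≠ d ∧ c ≠ d then 0 else 1)) ≤ 5 * (n : ℝ) ^ 2 := by
  have h1 := deg1 n (fun c _ => c) (fun c d => 5 * c - 4 * d)
  have h2 := deg1 n (fun _ d => d) (fun c d => 4 * c - 3 * d)
  have h3 := deg1 n (fun c d => 4 * d - 3 * c) (fun c _ => c)
  have h4 := deg1 n (fun c d => 5 * d - 4 * c) (fun _ d => d)
  have h5 := deg2 n
  have h6 : Q4 n (fun a b c d => ind a b c d *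
      (if a ≠ b ∧ a ≠ c ∧ a ≠ d ∧ b ≠ c ∧ b ≠ d ∧ c ≠ d then 0 else 1)) ≤
      Q4 n (fun a b c d => ((((if a = c ∧ b = 5 * c - 4 * d then 1 else 0)
        + (if a = d ∧ b = 4 * c - 3 * d then 1 else 0))
        + (if a = 4 * d - 3 * c ∧ b = c then 1 else 0))
        + (if a = 5 * d - 4 * c ∧ b = d then 1 else 0))
        + (if b = a ∧ d = c then 1 else 0)) := by
    apply Q4_le
    intro a _ b _ c _ d _
    unfold ind
    split_ifs <;> first | (exfalso; omega) | norm_num
  rw [Q4_add, Q4_add, Q4_add, Q4_add] at h6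
  linarith

theorem dl_le (t : ℤ) : dl t ≤ 2 := by
  unfold dl
  split_ifs <;> norm_num

theorem block_sum (M K : ℕ) (hK : 0 < K) (F : ℕ → ℕ → ℕ → ℕ → ℝ)
    (hF : ∀ i j k l, 0 ≤ F i j k l) :
    Q4 (M * (4 * K)) (fun a b c d => ind a b c d *
        F (a / (4 * K)) (b / (4 * K)) (c / (4 * K)) (d / (4 * K))) ≤
      2 / 3 * (K : ℝ) ^ 3 * Q4 M (fun i j k l => F i j k l * w6 ((j : ℤ) + 4 * l - i - 4 * k))
        + 4 / 3 * K * Q4 M F := by
  rw [Q4_split, ← Q4_mul, ← Q4_mul, ← Q4_add]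
  apply Q4_le
  intro i _ j _ k _ l _
  have e1 : Q4 (4 * K) (fun a b c d =>
      ind (i * (4 * K) + a) (j * (4 * K) + b) (k * (4 * K) + c) (l * (4 * K) + d) *
        F ((i * (4 * K) + a) / (4 * K)) ((j * (4 * K) + b) / (4 * K))
          ((k * (4 * K) + c) / (4 * K)) ((l * (4 * K) + d) / (4 * K))) =
      F i j k l * NL (4 * K) ((j : ℤ) + 4 * l - i - 4 * k) := by
    unfold NL
    rw [← Q4_mul]
    apply Q4_congr
    intro a ha b hb c hc d hd
    have hdiv : ∀ x y : ℕ, y < 4 * K → (x * (4 * K) + y) / (4 * K) = x := by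
      intro x y hy
      rw [mul_comm, Nat.mul_add_div (by omega), Nat.div_eq_of_lt hy, add_zero]
    rw [hdiv i a ha, hdiv j b hb, hdiv k c hc, hdiv l d hd, mul_comm]
    congr 1
    unfold ind
    congr 1
    apply propext
    generalize 4 * K = L
    constructor
    · intro h
      have h' : ((i * L + a + 4 * (k * L + c) : ℕ) : ℤ) = ((j * L + b + 4 * (l * L + d) : ℕ) : ℤ) := by
        rw [h]
      push_cast at h'
      linarith
    · intro h
      have h' : ((i * L + a + 4 * (k * L + c) : ℕ) : ℤ) = ((j * L + b + 4 * (l * L + d) : ℕ) : ℤ) := by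
        push_cast
        linarith
      exact_mod_cast h'
  rw [e1, NL_formula]
  have h2 := dl_le ((j : ℤ) + 4 * l - i - 4 * k)
  have h3 := hF i j k l
  have h4 : (0 : ℝ) ≤ K := by positivity
  nlinarith [mul_nonneg (mul_nonneg h3 h4) (sub_nonneg.mpr h2)]

/-- A colouring with few monochromatic solutions. -/
theorem exists_colouring (M r K : ℕ) (hK : 0 < K) (p q : ℕ → ℝ) (hp : ∀ i, 0 ≤ p i)
    (hq : ∀ i, 0 ≤ q i) (hpq : ∀ i, p i + r * q i = 1) :
    ∃ col : Fin (M * (4 * K)) → Fin (r + 1),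
      ∑ x : Fin 4 → Fin (M * (4 * K)), ind (x 0) (x 1) (x 2) (x 3) *
        (if col (x 0) = col (x 1) ∧ col (x 0) = col (x 2) ∧ col (x 0) = col (x 3) then 1 else 0) ≤
      2 / 3 * (K : ℝ) ^ 3 * Q4 M (fun i j k l => (p i * p j * p k * p l + r * (q i * q j * q k * q l))
          * w6 ((j : ℤ) + 4 * l - i - 4 * k))
        + 4 / 3 * K * Q4 M (fun i j k l => p i * p j * p k * p l + r * (q i * q j * q k * q l))
        + 5 * ((M * (4 * K) : ℕ) : ℝ) ^ 2 := by
  by_contra hc
  push Not at hc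
  set π : Fin (M * (4 * K)) → Fin (r + 1) → ℝ :=
    fun x u => if u = 0 then p (x / (4 * K)) else q (x / (4 * K)) with hπ
  have h0 : ∀ x u, 0 ≤ π x u := fun x u => by
    simp only [hπ]
    split_ifs
    · exact hp _
    · exact hq _
  have h1 : ∀ x, ∑ u, π x u = 1 := fun x => by
    rw [Fin.sum_univ_succ]
    simp only [hπ, if_true, Fin.succ_ne_zero, if_false, Finset.sum_const, Finset.card_univ,
      Fintype.card_fin, nsmul_eq_mul]
    exact hpq _
  have h2 := exists_le_expect π h0 h1 _ _ hc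
  simp only [Finset.mul_sum] at h2
  rw [Finset.sum_comm] at h2
  obtain ⟨H, hH⟩ : ∃ H : ℕ → ℕ → ℕ → ℕ → ℝ, H = (fun a b c d : ℕ => ind a b c d *
        (p (a / (4 * K)) * p (b / (4 * K)) * p (c / (4 * K)) * p (d / (4 * K)) +
          r * (q (a / (4 * K)) * q (b / (4 * K)) * q (c / (4 * K)) * q (d / (4 * K)))) +
        ind a b c d * (if a ≠ b ∧ a ≠ c ∧ a ≠ d ∧ b ≠ c ∧ b ≠ d ∧ c ≠ d then 0 else 1)) := ⟨_, rfl⟩
  have h3 : ∀ x : Fin 4 → Fin (M * (4 * K)),
      ∑ col : Fin (M * (4 * K)) → Fin (r + 1), (∏ y, π y (col y)) * (ind (x 0) (x 1) (x 2) (x 3) *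
        (if col (x 0) = col (x 1) ∧ col (x 0) = col (x 2) ∧ col (x 0) = col (x 3) then 1 else 0)) ≤
      H (x 0) (x 1) (x 2) (x 3) := by
    intro x
    have h4 := expect_mono π h0 h1 (x 0) (x 1) (x 2) (x 3)
    rw [Fin.sum_univ_succ] at h4
    simp only [hπ, if_true, Fin.succ_ne_zero, if_false, Finset.sum_const, Finset.card_univ,
      Fintype.card_fin, nsmul_eq_mul] at h4
    have h5 := mul_le_mul_of_nonneg_left h4 (ind_nonneg (x 0) (x 1) (x 2) (x 3))
    rw [Finset.mul_sum, mul_add] at h5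
    simp only [hH, ne_eq, Fin.val_inj]
    refine le_trans (le_of_eq ?_) h5
    refine Finset.sum_congr rfl fun col _ => ?_
    simp only [hπ]
    ring
  have h6 := Finset.sum_le_sum fun x (_ : x ∈ Finset.univ) => h3 x
  rw [Q4_fin _ H, hH, Q4_add] at h6
  have h7 := deg_le (M * (4 * K))
  have h8 := block_sum M K hK (fun i j k l => p i * p j * p k * p l + r * (q i * q j * q k * q l))
    (fun i j k l => by have := hp i; have := hp j; have := hp k; have := hp l
                       have := hq i; have := hq j; have := hq k; have := hq l; positivity)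
  linarith

end Pool.Agent.H128Z.Common
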