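import Pool.Agent.H128Z.CommonData

set_option autoImplicit false

namespace Pool.Agent.H128Z.Common

theorem check2 : mid (chunks.map (List.map (fun a => 8589934592 - a))) =
    33713873013671806027688656973890647651217813651936920588 := by decide +kernel

theorem check : 131071 ^ 3 * mid chunks + mid (chunks.map (List.map (fun a => 8589934592 - a)))
    < 131071 ^ 3 * 131072 * 65536 ^ 4 * (22 * 65536 ^ 3) := by
  rw [check1, check2]
  norm_num

end Pool.Agent.H128Z.Common
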