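import Mathlib
import Pool.Agent.H128Z.CommonA
import Pool.Agent.H128Z.CommonData2

/-!
Reading the weighted count of a block profile off one digit of a product of integers.
-/

set_option autoImplicit false

namespace Pool.Agent.H128Z.Common

open Finset

theorem digit {ι : Type} (s : Finset ι) (w e : ι → ℕ) (B c : ℕ) (hB : ∑ i ∈ s, w i < B) :
    (∑ i ∈ s, w i * B ^ e i) / B ^ c % B = ∑ i ∈ s, if e i = c then w i else 0 := by
  have hB0 : 0 < B := by omega
  set lo := ∑ i ∈ s, if e i < c then w i * B ^ e i else 0 with hlo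
  set m := ∑ i ∈ s, if e i = c then w i else 0 with hm
  set hi := ∑ i ∈ s, if c < e i then w i * B ^ (e i - c - 1) else 0 with hhi
  have e1 : ∑ i ∈ s, w i * B ^ e i = lo + B ^ c * (m + B * hi) := by
    rw [hlo, hm, hhi, Finset.mul_sum, ← Finset.sum_add_distrib, Finset.mul_sum,
      ← Finset.sum_add_distrib]
    refine Finset.sum_congr rfl fun i _ => ?_
    rcases lt_trichotomy (e i) c with h | h | h
    · rw [if_pos h, if_neg (by omega), if_neg (by omega)]
      simp
    · rw [if_neg (by omega), if_pos h, if_neg (by omega), h]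
      ring
    · rw [if_neg (by omega), if_neg (by omega), if_pos h]
      obtain ⟨t, ht⟩ : ∃ t, e i = c + t + 1 := ⟨e i - c - 1, by omega⟩
      rw [ht, show c + t + 1 - c - 1 = t by omega]
      ring
  have e2 : m < B := by
    refine lt_of_le_of_lt (Finset.sum_le_sum fun i _ => ?_) hB
    split_ifs <;> omega
  have e3 : lo < B ^ c := by
    rcases Nat.eq_zero_or_pos c with h | h
    · rw [hlo, h]
      simp
    · have : lo ≤ (∑ i ∈ s, w i) * B ^ (c - 1) := by
        rw [hlo, Finset.sum_mul]
        refine Finset.sum_le_sum fun i _ => ?_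
        split_ifs with h2
        · exact Nat.mul_le_mul_left _ (Nat.pow_le_pow_right hB0 (by omega))
        · exact Nat.zero_le _
      refine lt_of_le_of_lt this ?_
      rw [show B ^ c = B * B ^ (c - 1) by rw [← pow_succ']; congr 1; omega]
      exact Nat.mul_lt_mul_of_pos_right hB (by positivity)
  rw [e1, Nat.add_mul_div_left _ _ (by positivity), Nat.div_eq_of_lt e3, zero_add,
    Nat.add_mul_mod_self_left, Nat.mod_eq_of_lt e2]

theorem ev_cons (s a : ℕ) (l : List ℕ) : ev s (a :: l) = a + ev s l * 2 ^ s := by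
  rw [← Nat.shiftLeft_eq]
  rfl

theorem ev_eq (s : ℕ) (l : List ℕ) :
    ev s l = ∑ i ∈ range l.length, l.getD i 0 * (2 ^ s) ^ i := by
  induction l with
  | nil => simp [ev]
  | cons a l ih =>
    rw [ev_cons, ih, List.length_cons, Finset.sum_range_succ', Finset.sum_mul]
    simp only [List.getD_cons_succ, List.getD_cons_zero, pow_zero, mul_one]
    rw [add_comm]
    congr 1
    refine Finset.sum_congr rfl fun i _ => ?_
    ring

theorem ev_append (s : ℕ) (l l' : List ℕ) :
    ev s (l ++ l') = ev s l + ev s l' * 2 ^ (l.length * s) := by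
  induction l with
  | nil => simp [ev]
  | cons a l ih =>
    rw [List.cons_append, ev_cons, ev_cons, ih, List.length_cons]
    ring

theorem ev2_eq (s : ℕ) (L : List (List ℕ)) (h : ∀ l ∈ L, l.length = 256) :
    ev2 s L = ev s L.flatten := by
  induction L with
  | nil => simp [ev, ev2]
  | cons l L ih =>
    rw [List.flatten_cons, ev_append, ← ih (fun l' hl' => h l' (List.mem_cons_of_mem _ hl')),
      h l List.mem_cons_self, ← Nat.shiftLeft_eq]
    rfl

theorem ev_pr (s : ℕ) : ∀ l : List ℕ, ev (2 * s) (pr s l) = ev s l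
  | [] => rfl
  | [a] => by simp [pr, ev]
  | a :: b :: l => by
    rw [pr, ev_cons, ev_cons, ev_cons, ev_pr s l, Nat.shiftLeft_eq]
    ring

theorem red_eq (k s : ℕ) (l : List ℕ) : red k s l = ev s l := by
  induction k generalizing s l with
  | zero => rfl
  | succ k ih => rw [red, ih, ev_pr]

theorem ev3_eq (s : ℕ) (L : List (List ℕ)) : ev3 s L = ev2 s L := by
  unfold ev3
  rw [red_eq]
  induction L with
  | nil => rfl
  | cons l L ih =>
    rw [List.map_cons, ev_cons, ih, red_eq, ← Nat.shiftLeft_eq]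
    rfl

theorem om_w6 (t : ℤ) (x : ℕ) :
    ((∑ u ∈ range 9, (if (u : ℤ) - 4 = t then x * om.getD u 0 else 0) : ℕ) : ℝ) = x * w6 t := by
  by_cases ht : -4 ≤ t ∧ t ≤ 4
  · obtain ⟨h1, h2⟩ := ht
    interval_cases t <;> simp [Finset.sum_range_succ, om, w6] <;> norm_num
  · have hw : w6 t = 0 := by
      unfold w6
      rw [if_neg (by omega), if_neg (by omega), if_neg (by omega)]
    rw [hw, mul_zero, Finset.sum_eq_zero, Nat.cast_zero]
    intro u hu
    rw [mem_range] at hu
    rw [if_neg (by omega)]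

theorem coeff_eq (M B W : ℕ) (f : ℕ → ℕ) (hs : ∀ i, i < M → f (M - 1 - i) = f i)
    (hW : ∀ i, f i ≤ W) (hB : (M * W) ^ 4 * (9 * 22) < B) :
    (((((∑ i ∈ range M, f i * B ^ i) * (∑ i ∈ range M, f i * (B ^ 4) ^ i)) ^ 2 *
        ∑ u ∈ range 9, om.getD u 0 * B ^ u) / B ^ (5 * (M - 1) + 4) % B : ℕ) : ℝ) =
      Q4 M (fun i j k l => (f i * f j * f k * f l : ℝ) * w6 ((j : ℤ) + 4 * l - i - 4 * k)) := by
  have r1 : ∑ i ∈ range M, f i * B ^ i = ∑ i ∈ range M, f i * B ^ (M - 1 - i) := by
    rw [← Finset.sum_range_reflect (fun i => f i * B ^ i) M]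
    exact Finset.sum_congr rfl fun i hi => by rw [hs i (mem_range.mp hi)]
  have r2 : ∑ i ∈ range M, f i * (B ^ 4) ^ i = ∑ i ∈ range M, f i * (B ^ 4) ^ (M - 1 - i) := by
    rw [← Finset.sum_range_reflect (fun i => f i * (B ^ 4) ^ i) M]
    exact Finset.sum_congr rfl fun i hi => by rw [hs i (mem_range.mp hi)]
  have hd := digit (range M ×ˢ range M ×ˢ range M ×ˢ range M ×ˢ range 9)
    (fun y : ℕ × ℕ × ℕ × ℕ × ℕ => f y.1 * f y.2.1 * f y.2.2.1 * f y.2.2.2.1 * om.getD y.2.2.2.2 0)
    (fun y => y.1 + (M - 1 - y.2.1) + 4 * y.2.2.1 + 4 * (M - 1 - y.2.2.2.1) + y.2.2.2.2)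
    B (5 * (M - 1) + 4) (by
      refine lt_of_le_of_lt (Finset.sum_le_card_nsmul _ _ (W ^ 4 * 22) fun y hy => ?_) ?_
      · have h1 : om.getD y.2.2.2.2 0 ≤ 22 := by
          simp only [mem_product, mem_range] at hy
          have := hy.2.2.2.2
          generalize y.2.2.2.2 = u at this
          interval_cases u <;> simp [om]
        calc _ ≤ W * W * W * W * 22 := by
              gcongr <;> exact hW _
          _ = _ := by ring
      · simp only [card_product, card_range, smul_eq_mul]
        refine lt_of_le_of_lt (le_of_eq ?_) hB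
        ring)
  have e1 : ((∑ i ∈ range M, f i * B ^ i) * (∑ i ∈ range M, f i * (B ^ 4) ^ i)) ^ 2 *
        ∑ u ∈ range 9, om.getD u 0 * B ^ u =
      ∑ y ∈ (range M ×ˢ range M ×ˢ range M ×ˢ range M ×ˢ range 9 : Finset (ℕ × ℕ × ℕ × ℕ × ℕ)),
        f y.1 * f y.2.1 * f y.2.2.1 * f y.2.2.2.1 * om.getD y.2.2.2.2 0 *
        B ^ (y.1 + (M - 1 - y.2.1) + 4 * y.2.2.1 + 4 * (M - 1 - y.2.2.2.1) + y.2.2.2.2) := by
    have e2 : ((∑ i ∈ range M, f i * B ^ i) * (∑ i ∈ range M, f i * (B ^ 4) ^ i)) ^ 2 *
        ∑ u ∈ range 9, om.getD u 0 * B ^ u =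
        (∑ i ∈ range M, f i * B ^ i) * ((∑ i ∈ range M, f i * B ^ (M - 1 - i)) *
          ((∑ i ∈ range M, f i * (B ^ 4) ^ i) * ((∑ i ∈ range M, f i * (B ^ 4) ^ (M - 1 - i)) *
            ∑ u ∈ range 9, om.getD u 0 * B ^ u))) := by
      rw [← r1, ← r2]
      ring
    rw [e2, Finset.sum_product, Finset.sum_mul]
    refine Finset.sum_congr rfl fun i _ => ?_
    rw [Finset.sum_product, Finset.sum_mul, Finset.mul_sum]
    refine Finset.sum_congr rfl fun j _ => ?_
    rw [Finset.sum_product, Finset.sum_mul, Finset.mul_sum, Finset.mul_sum]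
    refine Finset.sum_congr rfl fun k _ => ?_
    rw [Finset.sum_product, Finset.sum_mul, Finset.mul_sum, Finset.mul_sum, Finset.mul_sum]
    refine Finset.sum_congr rfl fun l _ => ?_
    rw [Finset.mul_sum, Finset.mul_sum, Finset.mul_sum, Finset.mul_sum]
    refine Finset.sum_congr rfl fun u _ => ?_
    simp only [pow_add, pow_mul]
    ring
  rw [e1, hd]
  unfold Q4
  rw [Finset.sum_product, Nat.cast_sum]
  refine Finset.sum_congr rfl fun i hi => ?_
  rw [Finset.sum_product, Nat.cast_sum]
  refine Finset.sum_congr rfl fun j hj => ?_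
  rw [Finset.sum_product, Nat.cast_sum]
  refine Finset.sum_congr rfl fun k hk => ?_
  rw [Finset.sum_product, Nat.cast_sum]
  refine Finset.sum_congr rfl fun l hl => ?_
  rw [mem_range] at hi hj hk hl
  have := om_w6 ((j : ℤ) + 4 * l - i - 4 * k) (f i * f j * f k * f l)
  push_cast at this ⊢
  rw [← this]
  refine Finset.sum_congr rfl fun u _ => ?_
  congr 1
  apply propext
  constructor <;> intro h <;> omega

theorem mid_gen (s s4 c M W : ℕ) (hs4 : s4 = s * 4) (hc : c = 5 * (M - 1) + 4)
    (hB : (M * W) ^ 4 * (9 * 22) < 2 ^ s)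
    (L : List (List ℕ)) (h : ∀ l ∈ L, l.length = 256) (hl : L.flatten.length = M)
    (hr : L.flatten.reverse = L.flatten) (hb : ∀ a ∈ L.flatten, a ≤ W) :
    (((((ev3 s L * ev3 s4 L) ^ 2 * ev s om) >>> (s * c)) % 2 ^ s : ℕ) : ℝ) =
      Q4 M (fun i j k l => (L.flatten.getD i 0 * L.flatten.getD j 0 *
      L.flatten.getD k 0 * L.flatten.getD l 0 : ℝ) * w6 ((j : ℤ) + 4 * l - i - 4 * k)) := by
  rw [← coeff_eq M (2 ^ s) W (fun i => L.flatten.getD i 0)]
  · rw [ev3_eq, ev3_eq, ev2_eq _ _ h, ev2_eq _ _ h, ev_eq, ev_eq, ev_eq, hl, Nat.shiftRight_eq_div_pow, hs4, hc,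
      pow_mul, pow_mul]
    rfl
  · intro i hi
    generalize L.flatten = l at *
    rw [List.getD_eq_getElem _ _ (by omega), List.getD_eq_getElem _ _ (by omega)]
    have := List.getElem_reverse (l := l) (i := i) (by rw [List.length_reverse]; omega)
    simp only [hr, hl] at this
    exact this.symm
  · intro i
    generalize L.flatten = l at *
    by_cases hi : i < l.length
    · rw [List.getD_eq_getElem _ _ hi]
      exact hb _ (List.getElem_mem hi)
    · rw [List.getD_eq_default _ _ (by omega)]
      omega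
  · exact hB

theorem mid_eq (L : List (List ℕ)) (h : ∀ l ∈ L, l.length = 256) (hl : L.flatten.length = 65536)
    (hr : L.flatten.reverse = L.flatten) (hb : ∀ a ∈ L.flatten, a ≤ 8589934592) :
    (mid L : ℝ) = Q4 65536 (fun i j k l => (L.flatten.getD i 0 * L.flatten.getD j 0 *
      L.flatten.getD k 0 * L.flatten.getD l 0 : ℝ) * w6 ((j : ℤ) + 4 * l - i - 4 * k)) :=
  mid_gen 204 816 327679 65536 8589934592 (by norm_num) (by norm_num) (by norm_num) L h hl hr hb

theorem dig_length (k n : ℕ) : (dig k n).length = k := by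
  induction k generalizing n with
  | zero => rfl
  | succ k ih => simp [dig, ih]

theorem dig_lt (k n : ℕ) : ∀ a ∈ dig k n, a < 1048576 := by
  induction k generalizing n with
  | zero => simp [dig]
  | succ k ih =>
    intro a ha
    simp only [dig, List.mem_cons] at ha
    rcases ha with ha | ha
    · omega
    · exact ih _ a ha

theorem chunks_mem (l : List ℕ) (hl : l ∈ chunks) : l.length = 256 ∧ ∀ a ∈ l, a < 1048576 := by
  unfold chunks half at hl
  simp only [List.mem_append, List.mem_map, List.mem_reverse] at hl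
  rcases hl with ⟨x, _, rfl⟩ | ⟨_, ⟨x, _, rfl⟩, rfl⟩
  · exact ⟨dig_length _ _, dig_lt _ _⟩
  · exact ⟨by rw [List.length_reverse, dig_length], fun a ha => dig_lt _ _ a (List.mem_reverse.mp ha)⟩

theorem flatten_length (L : List (List ℕ)) (h : ∀ l ∈ L, l.length = 256) :
    L.flatten.length = 256 * L.length := by
  induction L with
  | nil => rfl
  | cons l L ih =>
    rw [List.flatten_cons, List.length_append, h l List.mem_cons_self,
      ih (fun l' hl' => h l' (List.mem_cons_of_mem _ hl')), List.length_cons]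
    ring

theorem lits_length : lits.length = 128 := by decide +kernel

theorem chunks_length : chunks.length = 256 := by
  unfold chunks half
  simp only [List.length_append, List.length_map, List.length_reverse, lits_length]

theorem flat_length : chunks.flatten.length = 65536 := by
  rw [flatten_length _ fun l hl => (chunks_mem l hl).1, chunks_length]

theorem flat_reverse : chunks.flatten.reverse = chunks.flatten := by
  unfold chunks
  rw [List.flatten_append, ← List.reverse_flatten, List.reverse_append, List.reverse_reverse]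

theorem flat_lt (a : ℕ) (ha : a ∈ chunks.flatten) : a < 1048576 := by
  obtain ⟨l, hl, h⟩ := List.mem_flatten.mp ha
  exact (chunks_mem l hl).2 a h

/-- the profile -/
theorem exists_profile : ∃ p q : ℕ → ℝ, (∀ i, 0 ≤ p i) ∧ (∀ i, 0 ≤ q i) ∧
    (∀ i, p i + (131071 : ℕ) * q i = 1) ∧
    Q4 65536 (fun i j k l => (p i * p j * p k * p l + (131071 : ℕ) * (q i * q j * q k * q l))
      * w6 ((j : ℤ) + 4 * l - i - 4 * k)) < 22 * 65536 ^ 3 / 131072 ^ 3 := by
  have h1 := mid_eq chunks (fun l hl => (chunks_mem l hl).1) flat_length flat_reverse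
    (fun a ha => by have := flat_lt a ha; omega)
  have hfl : (chunks.map (List.map (fun a => 8589934592 - a))).flatten =
      chunks.flatten.map (fun a => 8589934592 - a) := List.map_flatten.symm
  have h2 := mid_eq (chunks.map (List.map (fun a => 8589934592 - a)))
    (fun l hl => by
      obtain ⟨l', hl', rfl⟩ := List.mem_map.mp hl
      rw [List.length_map, (chunks_mem l' hl').1])
    (by rw [hfl, List.length_map, flat_length])
    (by rw [hfl, ← List.map_reverse, flat_reverse])
    (fun a ha => by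
      rw [hfl] at ha
      obtain ⟨b, _, rfl⟩ := List.mem_map.mp ha
      omega)
  rw [hfl] at h2
  have h3 : (131071 : ℝ) ^ 3 * (mid chunks : ℝ)
      + (mid (chunks.map (List.map (fun a => 8589934592 - a))) : ℝ)
      < 131071 ^ 3 * 131072 * 65536 ^ 4 * (22 * 65536 ^ 3) := by
    have := check
    generalize mid chunks = x at *
    generalize mid (chunks.map (List.map (fun a => 8589934592 - a))) = y at *
    exact_mod_cast this
  rw [h1, h2] at h3
  have hlen := flat_length
  have hlt := flat_lt
  generalize chunks.flatten = l at *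
  have hb : ∀ i, (l.getD i 0 : ℝ) ≤ 8589934592 := by
    intro i
    by_cases hi : i < l.length
    · rw [List.getD_eq_getElem _ _ hi]
      have := hlt _ (List.getElem_mem hi)
      exact_mod_cast (show l[i] ≤ 8589934592 by omega)
    · rw [List.getD_eq_default _ _ (by omega)]
      norm_num
  have hm : ∀ i, i < 65536 → (((l.map (fun a => 8589934592 - a)).getD i 0 : ℕ) : ℝ) =
      8589934592 - (l.getD i 0 : ℝ) := by
    intro i hi
    rw [List.getD_eq_getElem _ _ (by rw [List.length_map]; omega),
      List.getD_eq_getElem _ _ (by omega), List.getElem_map]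
    have := hlt _ (List.getElem_mem (show i < l.length by omega))
    rw [Nat.cast_sub (by omega)]
    norm_num
  have hsum : ∀ x : ℝ, x / 8589934592 + ((131071 : ℕ) : ℝ) *
      ((8589934592 - x) / (131071 * 8589934592)) = 1 := by
    intro x
    rw [Nat.cast_ofNat]
    field_simp
    ring
  refine ⟨fun i => (l.getD i 0 : ℝ) / 8589934592,
    fun i => (8589934592 - (l.getD i 0 : ℝ)) / (131071 * 8589934592),
    fun i => div_nonneg (Nat.cast_nonneg _) (by norm_num),
    fun i => div_nonneg (sub_nonneg.mpr (hb i)) (by norm_num), fun i => hsum _, ?_⟩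
  rw [← Q4_mul, ← Q4_add] at h3
  have h4 := mul_lt_mul_of_pos_left h3 (show (0 : ℝ) < 1 / (131071 ^ 3 * 8589934592 ^ 4) by norm_num)
  rw [← Q4_mul] at h4
  refine lt_of_le_of_lt (le_of_eq ?_) (lt_of_lt_of_le h4 (le_of_eq (by norm_num)))
  apply Q4_congr
  intro i hi j hj k hk m hm'
  rw [hm i hi, hm j hj, hm k hk, hm m hm']
  push_cast
  ring

end Pool.Agent.H128Z.Common
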