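import Mathlib

/-!
Sign alternation of real polynomials on the negative axis and sign changes of coefficients.
-/

set_option autoImplicit false

namespace Pool.Agent.H128Z.Euler

open Polynomial Finset

/-- `p` alternates in sign at the points `y 0 > y 1 > … > y m`. -/
def Alt (p : ℝ[X]) (m : ℕ) (y : ℕ → ℝ) : Prop :=
  (∀ i, i < m → y (i + 1) < y i) ∧ ∀ i, i ≤ m → 0 < (-1) ^ i * p.eval (y i)

theorem Alt.le {p : ℝ[X]} {m : ℕ} {y : ℕ → ℝ} (h : Alt p m y) :
    ∀ j, j ≤ m → ∀ i, i ≤ j → y j ≤ y i := by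
  intro j
  induction j with
  | zero =>
    intro _ i hi
    have : i = 0 := by omega
    rw [this]
  | succ j ih =>
    intro hj i hi
    rcases Nat.lt_or_ge j i with h1 | h1
    · have : i = j + 1 := by omega
      rw [this]
    · exact (h.1 j (by omega)).le.trans (ih (by omega) i h1)

theorem exists_root (p : ℝ[X]) {a b s : ℝ} (hab : a < b) (ha : s * p.eval a < 0)
    (hb : 0 < s * p.eval b) : ∃ c, a < c ∧ c < b ∧ p.eval c = 0 := by
  have hc : ContinuousOn (fun x => s * p.eval x) (Set.Icc a b) :=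
    (continuous_const.mul p.continuous).continuousOn
  obtain ⟨c, hc1, hc2⟩ := intermediate_value_Ioo hab.le hc (show (0 : ℝ) ∈ _ from ⟨ha, hb⟩)
  refine ⟨c, hc1.1, hc1.2, ?_⟩
  have hs : s ≠ 0 := by
    rintro rfl
    simp at hb
  exact (mul_eq_zero.mp hc2).resolve_left hs

/-- Four coefficients of alternating signs. -/
def Four (c : ℕ → ℝ) : Prop :=
  ∃ (s : ℝ) (i j k l : ℕ), i < j ∧ j < k ∧ k < l ∧ 0 < s * c i ∧ s * c j < 0 ∧ 0 < s * c k ∧
    s * c l < 0

theorem pick (p : ℝ[X]) (a s : ℝ) (ha : 0 < a) (i : ℕ)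
    (h : 0 < s * ((X + C a) * p).coeff i) :
    ∃ i', i' ≤ i ∧ i ≤ i' + 1 ∧ 0 < s * p.coeff i' := by
  rcases i with _ | i
  · refine ⟨0, le_rfl, by omega, ?_⟩
    rw [add_mul, coeff_add, coeff_X_mul_zero, coeff_C_mul, zero_add] at h
    by_contra hc
    push Not at hc
    nlinarith
  · rw [add_mul, coeff_add, coeff_X_mul, coeff_C_mul] at h
    by_cases h1 : 0 < s * p.coeff i
    · exact ⟨i, by omega, le_rfl, h1⟩
    · refine ⟨i + 1, le_rfl, by omega, ?_⟩
      by_contra hc
      push Not at hc h1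
      nlinarith

theorem four_mul (p : ℝ[X]) (a : ℝ) (ha : 0 < a) (h : Four ((X + C a) * p).coeff) :
    Four p.coeff := by
  obtain ⟨s, i, j, k, l, hij, hjk, hkl, h1, h2, h3, h4⟩ := h
  obtain ⟨i', a1, a2, a3⟩ := pick p a s ha i h1
  obtain ⟨j', b1, b2, b3⟩ := pick p a (-s) ha j (by linarith)
  obtain ⟨k', c1, c2, c3⟩ := pick p a s ha k h3
  obtain ⟨l', d1, d2, d3⟩ := pick p a (-s) ha l (by linarith)
  have e1 : i' ≠ j' := by
    rintro rfl
    linarith
  have e2 : j' ≠ k' := by
    rintro rfl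
    linarith
  have e3 : k' ≠ l' := by
    rintro rfl
    linarith
  exact ⟨s, i', j', k', l', by omega, by omega, by omega, a3, by linarith, c3, by linarith⟩

theorem not_four (m : ℕ) : ∀ (p : ℝ[X]) (y : ℕ → ℝ), p.natDegree ≤ m + 2 → Alt p m y → y 0 ≤ 0 →
    ¬ Four p.coeff := by
  induction m with
  | zero =>
    intro p y hd _ _ ⟨s, i, j, k, l, hij, hjk, hkl, _, _, _, h4⟩
    rw [coeff_eq_zero_of_natDegree_lt (show p.natDegree < l by omega)] at h4
    simp at h4
  | succ m ih =>
    intro p y hd hA hy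
    have h1 := hA.2 m (by omega)
    have h2 := hA.2 (m + 1) le_rfl
    obtain ⟨c, hc1, hc2, hc⟩ := exists_root p (s := (-1) ^ m) (hA.1 m (by omega))
      (by rw [pow_succ] at h2; linarith) h1
    have hc0 : c < 0 := lt_of_lt_of_le hc2 ((hA.le m (by omega) 0 (by omega)).trans hy)
    obtain ⟨q, hq⟩ : (X - C c) ∣ p := dvd_iff_isRoot.mpr hc
    have hq0 : q ≠ 0 := by
      rintro rfl
      rw [hq] at h1
      simp at h1
    have hdeg : q.natDegree ≤ m + 2 := by
      rw [hq, natDegree_mul (X_sub_C_ne_zero c) hq0, natDegree_X_sub_C] at hd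
      omega
    have hAq : Alt q m y := by
      refine ⟨fun i hi => hA.1 i (by omega), fun i hi => ?_⟩
      have h3 := hA.2 i (by omega)
      have h4 : 0 < y i - c := by
        have := hA.le m (by omega) i hi
        linarith
      rw [hq, eval_mul, eval_sub, eval_X, eval_C] at h3
      by_contra hcon
      push Not at hcon
      nlinarith
    intro hF
    apply ih q y hdeg hAq hy
    apply four_mul q (-c) (by linarith)
    rw [hq] at hF
    simpa [sub_eq_add_neg] using hF

theorem mvt_pos {f g : ℝ → ℝ} {a b : ℝ} (hab : a < b)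
    (hd : ∀ x, a ≤ x → x ≤ b → HasDerivAt f (g x) x) (h : f a < f b) :
    ∃ c, a < c ∧ c < b ∧ 0 < g c := by
  obtain ⟨c, hc, he⟩ := exists_hasDerivAt_eq_slope f g hab
    (fun x hx => (hd x hx.1 hx.2).continuousAt.continuousWithinAt)
    (fun x hx => hd x hx.1.le hx.2.le)
  refine ⟨c, hc.1, hc.2, ?_⟩
  rw [he]
  exact div_pos (by linarith) (by linarith)

theorem maxpt {f w : ℝ → ℝ} (q : ℝ[X]) {a y b : ℝ} (hay : a < y) (hyb : y < b)
    (hd : ∀ x, a ≤ x → x ≤ b → HasDerivAt f (w x * q.eval x) x)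
    (hw : ∀ x, a ≤ x → x ≤ b → 0 < w x) (ha : f a ≤ 0) (hb : f b ≤ 0) (hy : 0 < f y) :
    ∃ c, a < c ∧ c < b ∧ 0 < f c ∧ q.eval c = 0 ∧ q.derivative.eval c ≤ 0 := by
  have hcont : ContinuousOn f (Set.Icc a b) :=
    fun x hx => (hd x hx.1 hx.2).continuousAt.continuousWithinAt
  obtain ⟨c, hc, hmax⟩ := isCompact_Icc.exists_isMaxOn ⟨y, hay.le, hyb.le⟩ hcont
  have hfc : 0 < f c := lt_of_lt_of_le hy (hmax ⟨hay.le, hyb.le⟩)
  have hac : a < c := lt_of_le_of_ne hc.1 (by rintro rfl; linarith)
  have hcb : c < b := lt_of_le_of_ne hc.2 (by rintro rfl; linarith)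
  have hloc : IsLocalMax f c := hmax.isLocalMax (Icc_mem_nhds hac hcb)
  have hz := hloc.hasDerivAt_eq_zero (hd c hc.1 hc.2)
  have hq : q.eval c = 0 := (mul_eq_zero.mp hz).resolve_left (hw c hc.1 hc.2).ne'
  refine ⟨c, hac, hcb, hfc, hq, ?_⟩
  by_contra hcon
  push Not at hcon
  have hev := eventually_nhdsWithin_sign_eq_of_deriv_pos (f := fun x => q.eval x) (x₀ := c)
    (by rw [Polynomial.deriv]; exact hcon) hq
  obtain ⟨ε, hε, hball⟩ := Metric.eventually_nhds_iff.mp hev
  set d := min (c + ε / 2) b with hdd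
  have hcd : c < d := lt_min (by linarith) hcb
  have hdb : d ≤ b := min_le_right _ _
  have hde : d ≤ c + ε / 2 := min_le_left _ _
  obtain ⟨ξ, hξ, he⟩ := exists_hasDerivAt_eq_slope f (fun x => w x * q.eval x) hcd
    (fun x hx => (hd x (by linarith [hx.1]) (hx.2.trans hdb)).continuousAt.continuousWithinAt)
    (fun x hx => hd x (by linarith [hx.1]) (hx.2.le.trans hdb))
  have hs := hball (y := ξ) (by
    rw [Real.dist_eq, abs_lt]
    constructor <;> linarith [hξ.1, hξ.2])
  rw [sign_pos (show 0 < ξ - c by linarith [hξ.1]), sign_eq_one_iff] at hs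
  have hpos : 0 < w ξ * q.eval ξ := mul_pos (hw ξ (by linarith [hξ.1]) (hξ.2.le.trans hdb)) hs
  have hle : f d ≤ f c := hmax ⟨by linarith, hdb⟩
  have : (f d - f c) / (d - c) ≤ 0 := div_nonpos_of_nonpos_of_nonneg (by linarith) (by linarith)
  linarith

theorem far (p : ℝ[X]) (d : ℕ) (hd : p.natDegree = d) (hl : 0 < p.leadingCoeff) (b : ℝ) :
    ∃ Y, Y < b ∧ 0 < (-1) ^ d * p.eval Y := by
  have h := p.isEquivalent_atBot_lead
  have h2 : ∀ᶠ x in Filter.atBot, 0 < (-1) ^ d * p.eval x := by
    have h3 := h.isLittleO.bound (show (0 : ℝ) < 1 / 2 by norm_num)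
    filter_upwards [h3, Filter.eventually_lt_atBot 0] with x hx hx0
    simp only [Pi.sub_apply, Real.norm_eq_abs, hd] at hx
    have hpos : 0 < (-1) ^ d * (p.leadingCoeff * x ^ d) := by
      have : (-1 : ℝ) ^ d * (p.leadingCoeff * x ^ d) = p.leadingCoeff * (-x) ^ d := by
        rw [neg_pow x]; ring
      rw [this]
      exact mul_pos hl (pow_pos (by linarith) d)
    have habs : |p.leadingCoeff * x ^ d| = (-1) ^ d * (p.leadingCoeff * x ^ d) := by
      rw [← abs_of_pos hpos, abs_mul ((-1 : ℝ) ^ d)]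
      simp
    have h5 : |(-1) ^ d * (p.eval x - p.leadingCoeff * x ^ d)|
        = |p.eval x - p.leadingCoeff * x ^ d| := by
      rw [abs_mul]
      simp
    rw [← h5, habs] at hx
    have := (abs_le.mp hx).1
    nlinarith
  obtain ⟨Y, hY1, hY2⟩ := (h2.and (Filter.eventually_lt_atBot b)).exists
  exact ⟨Y, hY2, hY1⟩

/-- chord comparison for a convex sequence -/
theorem conv (w : ℕ → ℝ) (h : ∀ j, 2 * w (j + 1) ≤ w j + w (j + 2)) {p r : ℕ} (hpr : p < r)
    (he : w p = w r) :
    (∀ j, p ≤ j → j ≤ r → w j ≤ w p) ∧ (∀ j, j ≤ p ∨ r ≤ j → w p ≤ w j) := by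
  have hm : Monotone (fun j => w (j + 1) - w j) := by
    apply monotone_nat_of_le_succ
    intro j
    have := h j
    linarith
  have up : ∀ a b, a ≤ b → 0 ≤ w (a + 1) - w a → w a ≤ w b := by
    intro a b hab h0
    induction b, hab using Nat.le_induction with
    | base => exact le_rfl
    | succ b hab ih =>
      have := hm hab
      simp only at this
      linarith
  have down : ∀ a b, a ≤ b → w (b + 1) - w b ≤ 0 → w (b + 1) ≤ w a := by
    intro a b hab
    induction b, hab using Nat.le_induction with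
    | base => intro h0; linarith
    | succ b hab ih =>
      intro h0
      have := hm (show b ≤ b + 1 by omega)
      simp only at this
      have := ih (by linarith)
      linarith
  obtain ⟨r, rfl⟩ : ∃ r', r = r' + 1 := ⟨r - 1, by omega⟩
  have c1 : w (p + 1) - w p ≤ 0 := by
    by_contra hc
    push Not at hc
    have h1 := hm (show p ≤ p + 1 by omega)
    simp only at h1
    have := up (p + 1) (r + 1) (by omega) (by linarith)
    linarith
  have c2 : 0 ≤ w (r + 1) - w r := by
    by_contra hc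
    push Not at hc
    rcases Nat.eq_or_lt_of_le (show p ≤ r by omega) with h1 | h1
    · subst h1
      linarith
    · obtain ⟨r, rfl⟩ : ∃ r', r = r' + 1 := ⟨r - 1, by omega⟩
      have h2 := hm (show r ≤ r + 1 by omega)
      simp only at h2
      have := down p r (by omega) (by linarith)
      linarith
  constructor
  · intro j hpj hjr
    rcases le_total 0 (w (j + 1) - w j) with h1 | h1
    · rw [he]
      exact up j (r + 1) hjr h1
    · rcases Nat.eq_or_lt_of_le hpj with h2 | h2
      · rw [h2]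
      · obtain ⟨j, rfl⟩ : ∃ j', j = j' + 1 := ⟨j - 1, by omega⟩
        have h3 := hm (show j ≤ j + 1 by omega)
        simp only at h3
        exact down p j (by omega) (by linarith)
  · rintro j (hj | hj)
    · rcases Nat.eq_or_lt_of_le hj with h2 | h2
      · rw [h2]
      · obtain ⟨p, rfl⟩ : ∃ p', p = p' + 1 := ⟨p - 1, by omega⟩
        have h3 := hm (show p ≤ p + 1 by omega)
        simp only at h3
        exact down j p (by omega) (by linarith)
    · rw [he]
      have h3 := hm (show r ≤ r + 1 by omega)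
      simp only at h3
      exact up (r + 1) j hj (by linarith)

/-- If the negative entries of `ν` form an interval and `ν` is nonnegative on geometric sequences,
then `ν` is nonnegative on positive log-convex sequences. -/
theorem chord (N : ℕ) (ν x : ℕ → ℝ) (hx : ∀ k, 0 < x k) (hc : ∀ k, x (k + 1) ^ 2 ≤ x k * x (k + 2))
    (hν : ∀ i j k, i < j → j < k → k < N → ν i < 0 → ν k < 0 → ν j ≤ 0)
    (hg : ∀ t : ℝ, 0 < t → 0 ≤ ∑ k ∈ range N, ν k * t ^ k) :
    0 ≤ ∑ k ∈ range N, ν k * x k := by
  classical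
  by_cases hne : ((range N).filter fun k => ν k < 0).Nonempty
  · set S := (range N).filter fun k => ν k < 0 with hS
    set p := S.min' hne with hp
    set q := S.max' hne with hq
    have hpS : p ∈ S := S.min'_mem hne
    have hqS : q ∈ S := S.max'_mem hne
    have hpq : p ≤ q := S.min'_le _ hqS
    have hp0 : ν p < 0 := (mem_filter.mp hpS).2
    have hq0 : ν q < 0 := (mem_filter.mp hqS).2
    have hqN : q < N := mem_range.mp (mem_filter.mp hqS).1
    set t : ℝ := (x (q + 1) / x p) ^ (((q + 1 - p : ℕ) : ℝ)⁻¹) with ht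
    have hrat : 0 < x (q + 1) / x p := div_pos (hx _) (hx _)
    have ht0 : 0 < t := Real.rpow_pos_of_pos hrat _
    have htp : t ^ (q + 1 - p) = x (q + 1) / x p :=
      Real.rpow_inv_natCast_pow hrat.le (by omega)
    set w : ℕ → ℝ := fun j => x j / t ^ j with hw
    have hw0 : ∀ j, 0 < w j := fun j => div_pos (hx j) (pow_pos ht0 j)
    have hwc : ∀ j, 2 * w (j + 1) ≤ w j + w (j + 2) := by
      intro j
      have h1 : w (j + 1) ^ 2 ≤ w j * w (j + 2) := by
        simp only [hw]
        rw [div_pow, div_mul_div_comm]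
        have : (t ^ (j + 1)) ^ 2 = t ^ j * t ^ (j + 2) := by ring
        rw [this]
        exact div_le_div_of_nonneg_right (hc j) (by positivity)
      have h2 := hw0 j
      have h3 := hw0 (j + 1)
      have h4 := hw0 (j + 2)
      by_contra hcon
      push Not at hcon
      nlinarith [sq_nonneg (w j - w (j + 2))]
    have hwe : w p = w (q + 1) := by
      simp only [hw]
      have h1 : t ^ (q + 1) = t ^ p * (x (q + 1) / x p) := by
        rw [← htp, ← pow_add]
        congr 1
        omega
      rw [h1]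
      have := hx p
      have := hx (q + 1)
      field_simp
    obtain ⟨hin, hout⟩ := conv w hwc (show p < q + 1 by omega) hwe
    have hterm : ∀ k ∈ range N, w p * (ν k * t ^ k) ≤ ν k * x k := by
      intro k hk
      have hxk : x k = w k * t ^ k := by
        simp only [hw]
        field_simp
      have htk : 0 < t ^ k := pow_pos ht0 k
      rw [hxk]
      by_cases hk1 : p ≤ k ∧ k ≤ q
      · have hνk : ν k ≤ 0 := by
          rcases Nat.eq_or_lt_of_le hk1.1 with h1 | h1
          · rw [← h1]; exact hp0.le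
          · rcases Nat.eq_or_lt_of_le hk1.2 with h2 | h2
            · rw [h2]; exact hq0.le
            · exact hν p k q h1 h2 hqN hp0 hq0
        have := hin k hk1.1 (by omega)
        nlinarith [mul_nonneg (mul_nonneg (neg_nonneg.mpr hνk) htk.le) (sub_nonneg.mpr this)]
      · have hνk : 0 ≤ ν k := by
          by_contra hcon
          push Not at hcon
          have hkS : k ∈ S := mem_filter.mpr ⟨hk, hcon⟩
          exact hk1 ⟨S.min'_le _ hkS, S.le_max' _ hkS⟩
        have := hout k (by omega)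
        nlinarith [mul_nonneg (mul_nonneg hνk htk.le) (sub_nonneg.mpr this)]
    calc 0 ≤ w p * ∑ k ∈ range N, ν k * t ^ k := mul_nonneg (hw0 p).le (hg t ht0)
      _ = ∑ k ∈ range N, w p * (ν k * t ^ k) := by rw [Finset.mul_sum]
      _ ≤ _ := Finset.sum_le_sum hterm
  · apply Finset.sum_nonneg
    intro k hk
    have : 0 ≤ ν k := by
      by_contra hcon
      push Not at hcon
      exact hne ⟨k, mem_filter.mpr ⟨hk, hcon⟩⟩
    exact mul_nonneg this (hx k).le

end Pool.Agent.H128Z.Euler
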