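import Mathlib

/-!
A continuous map from a simplex to `ℝ⁴` for which the images of two triangles and of a third face,
pairwise disjoint, never have a common point.
-/

set_option autoImplicit false

namespace Pool.Agent.H128Z.Tverberg

open Finset

/-- The linear system that describes a coincidence among three triangles. -/
def sysM {R : Type*} [CommRing R] (a : Fin 9 → Fin 4 → R) : Matrix (Fin 9) (Fin 9) R :=
  !![1, 1, 1, -1, -1, -1, 0, 0, 0;
     1, 1, 1, 0, 0, 0, -1, -1, -1;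
     a 0 0, a 1 0, a 2 0, -a 3 0, -a 4 0, -a 5 0, 0, 0, 0;
     a 0 1, a 1 1, a 2 1, -a 3 1, -a 4 1, -a 5 1, 0, 0, 0;
     a 0 2, a 1 2, a 2 2, -a 3 2, -a 4 2, -a 5 2, 0, 0, 0;
     a 0 3, a 1 3, a 2 3, -a 3 3, -a 4 3, -a 5 3, 0, 0, 0;
     a 0 0, a 1 0, a 2 0, 0, 0, 0, -a 6 0, -a 7 0, -a 8 0;
     a 0 1, a 1 1, a 2 1, 0, 0, 0, -a 6 1, -a 7 1, -a 8 1;
     a 0 2, a 1 2, a 2 2, 0, 0, 0, -a 6 2, -a 7 2, -a 8 2]

theorem sysM_map {R S : Type*} [CommRing R] [CommRing S] (φ : R →+* S)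
    (a : Fin 9 → Fin 4 → R) : φ (sysM a).det = (sysM (fun k c => φ (a k c))).det := by
  rw [RingHom.map_det]
  congr 1
  ext i j
  fin_cases i <;> fin_cases j <;> simp [sysM]

/-- An explicit configuration in general position. -/
def ex : Fin 9 → Fin 4 → ℝ :=
  ![![0, 0, 0, 0], ![1, 0, 0, 0], ![0, 1, 0, 0], ![0, 0, 0, 0], ![0, 0, 1, 0], ![0, 0, 0, 1],
    ![1, 0, 0, 0], ![0, 1, 0, 0], ![0, 0, 1, 0]]

theorem ex_det : (sysM ex).det ≠ 0 := by
  intro h
  obtain ⟨v, hv, hz⟩ := Matrix.exists_mulVec_eq_zero_iff.mpr h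
  apply hv
  have h0 := congrFun hz 0
  have h1 := congrFun hz 1
  have h2 := congrFun hz 2
  have h3 := congrFun hz 3
  have h4 := congrFun hz 4
  have h5 := congrFun hz 5
  have h6 := congrFun hz 6
  have h7 := congrFun hz 7
  have h8 := congrFun hz 8
  simp [sysM, ex, Matrix.mulVec, dotProduct, Fin.sum_univ_succ] at h0 h1 h2 h3 h4 h5 h6 h7 h8
  funext i
  fin_cases i <;> simp <;> linarith

theorem generic (n : ℕ) : ∃ a : Fin n → Fin 4 → ℝ, ∀ e : Fin 9 → Fin n, Function.Injective e →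
    (sysM (fun k => a (e k))).det ≠ 0 := by
  classical
  let P : (Fin 9 → Fin n) → MvPolynomial (Fin n × Fin 4) ℝ := fun e =>
    (sysM (fun k c => (MvPolynomial.X (e k, c) : MvPolynomial (Fin n × Fin 4) ℝ))).det
  have hP : ∀ e : Fin 9 → Fin n, Function.Injective e → P e ≠ 0 := by
    intro e he h0
    obtain ⟨g, hg⟩ : ∃ g : Fin n → Fin 4 → ℝ, ∀ k, g (e k) = ex k :=
      ⟨Function.extend e ex (fun _ _ => 0), fun k => he.extend_apply _ _ k⟩
    have := sysM_map (MvPolynomial.eval (fun x : Fin n × Fin 4 => g x.1 x.2))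
      (fun k c => (MvPolynomial.X (e k, c) : MvPolynomial (Fin n × Fin 4) ℝ))
    simp only [MvPolynomial.eval_X, hg] at this
    change MvPolynomial.eval _ (P e) = _ at this
    rw [h0, map_zero] at this
    exact ex_det this.symm
  have hprod : ∏ e ∈ (univ.filter fun e : Fin 9 → Fin n => Function.Injective e), P e ≠ 0 := by
    rw [Finset.prod_ne_zero_iff]
    intro e he
    exact hP e (mem_filter.mp he).2
  obtain ⟨x, hx⟩ : ∃ x : Fin n × Fin 4 → ℝ, MvPolynomial.eval x
      (∏ e ∈ (univ.filter fun e : Fin 9 → Fin n => Function.Injective e), P e) ≠ 0 := by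
    by_contra hcon
    push Not at hcon
    apply hprod
    apply MvPolynomial.funext
    intro x
    rw [hcon x, map_zero]
  refine ⟨fun i c => x (i, c), fun e he => ?_⟩
  rw [map_prod, Finset.prod_ne_zero_iff] at hx
  have h1 := hx e (mem_filter.mpr ⟨mem_univ _, he⟩)
  have := sysM_map (MvPolynomial.eval x)
      (fun k c => (MvPolynomial.X (e k, c) : MvPolynomial (Fin n × Fin 4) ℝ))
  simp only [MvPolynomial.eval_X] at this
  rw [← this]
  exact h1

variable {n : ℕ}

/-- The fourth elementary symmetric function of the coordinates. -/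
def rho (p : Fin n → ℝ) : ℝ := ∑ T ∈ powersetCard 4 (univ : Finset (Fin n)), ∏ i ∈ T, p i

theorem rho_cont : Continuous (rho : (Fin n → ℝ) → ℝ) := by
  unfold rho
  fun_prop

theorem rho_zero (p : Fin n → ℝ) (S : Finset (Fin n)) (hS : S.card = 3)
    (hp : ∀ i, i ∉ S → p i = 0) : rho p = 0 := by
  unfold rho
  apply Finset.sum_eq_zero
  intro T hT
  have hT4 : T.card = 4 := (mem_powersetCard.mp hT).2
  have : ¬ T ⊆ S := by
    intro h
    have := card_le_card h
    omega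
  obtain ⟨i, hi, hiS⟩ := Finset.not_subset.mp this
  exact Finset.prod_eq_zero hi (hp i hiS)

theorem rho_nonneg (p : Fin n → ℝ) (hp : ∀ i, 0 ≤ p i) : 0 ≤ rho p := by
  unfold rho
  exact Finset.sum_nonneg fun T _ => Finset.prod_nonneg fun i _ => hp i

theorem small_support (p : Fin n → ℝ) (hp : ∀ i, 0 ≤ p i) (h : rho p = 0) (S : Finset (Fin n))
    (hS : 3 ≤ S.card) (hpS : ∀ i, i ∉ S → p i = 0) :
    ∃ T : Finset (Fin n), T ⊆ S ∧ T.card = 3 ∧ ∀ i, i ∉ T → p i = 0 := by
  classical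
  have h3 : (univ.filter fun i => p i ≠ 0).card ≤ 3 := by
    by_contra hc
    push Not at hc
    obtain ⟨T, hT, hT4⟩ := Finset.exists_subset_card_eq (show 4 ≤ _ from hc)
    have hpos : 0 < ∏ i ∈ T, p i := by
      apply Finset.prod_pos
      intro i hi
      exact lt_of_le_of_ne (hp i) (mem_filter.mp (hT hi)).2.symm
    have hle : ∏ i ∈ T, p i ≤ rho p := by
      unfold rho
      apply Finset.single_le_sum (f := fun T : Finset (Fin n) => ∏ i ∈ T, p i)
      · intro T _
        exact Finset.prod_nonneg fun i _ => hp i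
      · exact mem_powersetCard.mpr ⟨subset_univ _, hT4⟩
    linarith
  have hsub : (univ.filter fun i => p i ≠ 0) ⊆ S := by
    intro i hi
    by_contra hiS
    exact (mem_filter.mp hi).2 (hpS i hiS)
  obtain ⟨T, h1, h2, h4⟩ := Finset.exists_subsuperset_card_eq hsub h3 hS
  refine ⟨T, h2, h4, fun i hi => ?_⟩
  by_contra hne
  exact hi (h1 (mem_filter.mpr ⟨mem_univ _, hne⟩))

/-- The affine map with vertex images `a`. -/
def aff (a : Fin n → Fin 4 → ℝ) (p : Fin n → ℝ) (c : Fin 4) : ℝ := ∑ i, p i * a i c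

theorem aff_cont (a : Fin n → Fin 4 → ℝ) (c : Fin 4) :
    Continuous (fun p : Fin n → ℝ => aff a p c) := by
  unfold aff
  fun_prop

theorem sum_three (p g : Fin n → ℝ) (x y z : Fin n) (hxy : x ≠ y) (hxz : x ≠ z) (hyz : y ≠ z)
    (hp : ∀ i, i ∉ ({x, y, z} : Finset (Fin n)) → p i = 0) :
    ∑ i, p i * g i = p x * g x + p y * g y + p z * g z := by
  rw [← Finset.sum_subset (subset_univ ({x, y, z} : Finset (Fin n)))]
  · rw [Finset.sum_insert (by simp [hxy, hxz]), Finset.sum_insert (by simp [hyz]),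
      Finset.sum_singleton]
    ring
  · intro i _ hi
    rw [hp i hi, zero_mul]

theorem no_triple (a : Fin n → Fin 4 → ℝ)
    (ha : ∀ e : Fin 9 → Fin n, Function.Injective e → (sysM (fun k => a (e k))).det ≠ 0)
    (S1 S2 S3 : Finset (Fin n)) (h1 : S1.card = 3) (h2 : S2.card = 3) (h3 : S3.card = 3)
    (d12 : Disjoint S1 S2) (d13 : Disjoint S1 S3) (d23 : Disjoint S2 S3)
    (p1 p2 p3 : Fin n → ℝ) (s1 : ∑ i, p1 i = 1) (s2 : ∑ i, p2 i = 1) (s3 : ∑ i, p3 i = 1)
    (z1 : ∀ i, i ∉ S1 → p1 i = 0) (z2 : ∀ i, i ∉ S2 → p2 i = 0) (z3 : ∀ i, i ∉ S3 → p3 i = 0)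
    (e12 : ∀ c, aff a p1 c = aff a p2 c) (e13 : ∀ c, c ≠ 3 → aff a p1 c = aff a p3 c) : False := by
  obtain ⟨x0, x1, x2, a01, a02, a12, rfl⟩ := Finset.card_eq_three.mp h1
  obtain ⟨x3, x4, x5, a34, a35, a45, rfl⟩ := Finset.card_eq_three.mp h2
  obtain ⟨x6, x7, x8, a67, a68, a78, rfl⟩ := Finset.card_eq_three.mp h3
  have hinj : Function.Injective (![x0, x1, x2, x3, x4, x5, x6, x7, x8] : Fin 9 → Fin n) := by
    simp only [Finset.disjoint_insert_left, Finset.disjoint_singleton_left, Finset.mem_insert,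
      Finset.mem_singleton, not_or] at d12 d13 d23
    have hnd : List.Nodup [x0, x1, x2, x3, x4, x5, x6, x7, x8] := by
      simp only [List.nodup_cons, List.mem_cons, List.not_mem_nil, or_false, not_or,
        not_false_eq_true, List.nodup_nil, and_true]
      tauto
    have : List.ofFn (![x0, x1, x2, x3, x4, x5, x6, x7, x8] : Fin 9 → Fin n)
        = [x0, x1, x2, x3, x4, x5, x6, x7, x8] := by simp [List.ofFn_succ]
    rw [← this] at hnd
    exact List.nodup_ofFn.mp hnd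
  have hdet := ha _ hinj
  have t1 := sum_three p1 (fun _ => 1) x0 x1 x2 a01 a02 a12 z1
  have t2 := sum_three p2 (fun _ => 1) x3 x4 x5 a34 a35 a45 z2
  have t3 := sum_three p3 (fun _ => 1) x6 x7 x8 a67 a68 a78 z3
  simp only [mul_one] at t1 t2 t3
  rw [s1] at t1
  rw [s2] at t2
  rw [s3] at t3
  have u1 : ∀ c, aff a p1 c = p1 x0 * a x0 c + p1 x1 * a x1 c + p1 x2 * a x2 c := fun c =>
    sum_three p1 (fun i => a i c) x0 x1 x2 a01 a02 a12 z1
  have u2 : ∀ c, aff a p2 c = p2 x3 * a x3 c + p2 x4 * a x4 c + p2 x5 * a x5 c := fun c =>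
    sum_three p2 (fun i => a i c) x3 x4 x5 a34 a35 a45 z2
  have u3 : ∀ c, aff a p3 c = p3 x6 * a x6 c + p3 x7 * a x7 c + p3 x8 * a x8 c := fun c =>
    sum_three p3 (fun i => a i c) x6 x7 x8 a67 a68 a78 z3
  have f0 := e12 0
  have f1 := e12 1
  have f2 := e12 2
  have f3 := e12 3
  have g0 := e13 0 (by decide)
  have g1 := e13 1 (by decide)
  have g2 := e13 2 (by decide)
  rw [u1, u2] at f0 f1 f2 f3
  rw [u1, u3] at g0 g1 g2
  have hw : (sysM (fun k => a ((![x0, x1, x2, x3, x4, x5, x6, x7, x8] : Fin 9 → Fin n) k))).mulVec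
      ![p1 x0, p1 x1, p1 x2, p2 x3, p2 x4, p2 x5, p3 x6, p3 x7, p3 x8] = 0 := by
    funext i
    fin_cases i <;> simp [sysM, Matrix.mulVec, dotProduct, Fin.sum_univ_succ] <;> linarith
  have hz := Matrix.eq_zero_of_mulVec_eq_zero hdet hw
  have w0 := congrFun hz 0
  have w1 := congrFun hz 1
  have w2 := congrFun hz 2
  simp at w0 w1 w2
  linarith

theorem main (n : ℕ) : ∃ f : (Fin n → ℝ) → Fin 4 → ℝ, Continuous f ∧
    ∀ S1 S2 S3 : Finset (Fin n), S1.card = 3 → S2.card = 3 → 3 ≤ S3.card →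
      Disjoint S1 S2 → Disjoint S1 S3 → Disjoint S2 S3 →
      ∀ p1 ∈ stdSimplex ℝ (Fin n), ∀ p2 ∈ stdSimplex ℝ (Fin n), ∀ p3 ∈ stdSimplex ℝ (Fin n),
        (∀ i, i ∉ S1 → p1 i = 0) → (∀ i, i ∉ S2 → p2 i = 0) → (∀ i, i ∉ S3 → p3 i = 0) →
        f p1 = f p2 → f p1 = f p3 → False := by
  classical
  obtain ⟨a, ha⟩ := generic n
  let X := (Fin n → ℝ) × (Fin n → ℝ) × (Fin n → ℝ)
  let I := {S : Finset (Fin n) × Finset (Fin n) × Finset (Fin n) //
    S.1.card = 3 ∧ S.2.1.card = 3 ∧ 3 ≤ S.2.2.card ∧ Disjoint S.1 S.2.1 ∧ Disjoint S.1 S.2.2 ∧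
      Disjoint S.2.1 S.2.2}
  let K : I → Set X := fun S =>
    (stdSimplex ℝ (Fin n) ×ˢ stdSimplex ℝ (Fin n) ×ˢ stdSimplex ℝ (Fin n)) ∩
      {x | (∀ i, i ∉ S.1.1 → x.1 i = 0) ∧ (∀ i, i ∉ S.1.2.1 → x.2.1 i = 0) ∧
        (∀ i, i ∉ S.1.2.2 → x.2.2 i = 0) ∧ (∀ c, aff a x.1 c = aff a x.2.1 c) ∧
        (∀ c, c ≠ 3 → aff a x.1 c = aff a x.2.2 c)}
  have c1 : ∀ c, Continuous (fun x : X => aff a x.1 c) := fun c =>
    (aff_cont a c).comp continuous_fst
  have c2 : ∀ c, Continuous (fun x : X => aff a x.2.1 c) := fun c =>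
    (aff_cont a c).comp (continuous_fst.comp continuous_snd)
  have c3 : ∀ c, Continuous (fun x : X => aff a x.2.2 c) := fun c =>
    (aff_cont a c).comp (continuous_snd.comp continuous_snd)
  have hK : ∀ S, IsCompact (K S) := by
    intro S
    apply IsCompact.inter_right
    · exact (isCompact_stdSimplex ℝ (Fin n)).prod
        ((isCompact_stdSimplex ℝ (Fin n)).prod (isCompact_stdSimplex ℝ (Fin n)))
    · simp only [Set.ofPred_and, Set.ofPred_forall]
      refine IsClosed.inter ?_ (IsClosed.inter ?_ (IsClosed.inter ?_ (IsClosed.inter ?_ ?_)))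
      · refine isClosed_iInter fun i => isClosed_iInter fun _ => isClosed_eq ?_ continuous_const
        exact (continuous_apply i).comp continuous_fst
      · refine isClosed_iInter fun i => isClosed_iInter fun _ => isClosed_eq ?_ continuous_const
        exact (continuous_apply i).comp (continuous_fst.comp continuous_snd)
      · refine isClosed_iInter fun i => isClosed_iInter fun _ => isClosed_eq ?_ continuous_const
        exact (continuous_apply i).comp (continuous_snd.comp continuous_snd)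
      · exact isClosed_iInter fun c => isClosed_eq (c1 c) (c2 c)
      · exact isClosed_iInter fun c => isClosed_iInter fun _ => isClosed_eq (c1 c) (c3 c)
  have hKU : IsCompact (⋃ S, K S) := isCompact_iUnion hK
  have hpos : ∀ x ∈ ⋃ S, K S, 0 < rho x.2.2 := by
    intro x hx
    obtain ⟨S, ⟨hx1, hx2, hx3⟩, z1, z2, z3, e12, e13⟩ := Set.mem_iUnion.mp hx
    obtain ⟨h1, h2, h3, d12, d13, d23⟩ := S.2
    refine lt_of_le_of_ne (rho_nonneg _ hx3.1) (fun h0 => ?_)
    obtain ⟨T, hT, hT3, zT⟩ := small_support x.2.2 hx3.1 h0.symm S.1.2.2 h3 z3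
    exact no_triple a ha S.1.1 S.1.2.1 T h1 h2 hT3 d12 (d13.mono_right hT) (d23.mono_right hT)
      x.1 x.2.1 x.2.2 hx1.2 hx2.2 hx3.2 z1 z2 zT e12 e13
  have hcont : ContinuousOn (fun x : X => (aff a x.1 3 - aff a x.2.2 3) / rho x.2.2)
      (⋃ S, K S) := by
    apply ContinuousOn.div
    · exact ((c1 3).sub (c3 3)).continuousOn
    · exact (rho_cont.comp (continuous_snd.comp continuous_snd)).continuousOn
    · intro x hx
      exact (hpos x hx).ne'
  obtain ⟨B, hB⟩ := hKU.bddAbove_image hcont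
  refine ⟨fun p c => aff a p c + if c = 3 then (B + 1) * rho p else 0, ?_, ?_⟩
  · apply continuous_pi
    intro c
    apply (aff_cont a c).add
    split_ifs
    · exact continuous_const.mul rho_cont
    · exact continuous_const
  · intro S1 S2 S3 h1 h2 h3 d12 d13 d23 p1 hp1 p2 hp2 p3 hp3 z1 z2 z3 e12 e13
    have r1 := rho_zero p1 S1 h1 z1
    have r2 := rho_zero p2 S2 h2 z2
    have hx : ((p1, p2, p3) : X) ∈ ⋃ S, K S := by
      refine Set.mem_iUnion.mpr ⟨⟨(S1, S2, S3), h1, h2, h3, d12, d13, d23⟩,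
        ⟨hp1, hp2, hp3⟩, z1, z2, z3, ?_, ?_⟩
      · intro c
        have := congrFun e12 c
        simpa [r1, r2] using this
      · intro c hc
        have := congrFun e13 c
        simpa [hc] using this
    have hb := hB (Set.mem_image_of_mem _ hx)
    have hp := hpos _ hx
    have e3 := congrFun e13 3
    simp only [r1, if_true, mul_zero, add_zero] at e3
    change (aff a p1 3 - aff a p3 3) / rho p3 ≤ B at hb
    change 0 < rho p3 at hp
    rw [div_le_iff₀ hp] at hb
    nlinarith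

end Pool.Agent.H128Z.Tverberg
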